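import Pool.Agent.Q77.LU.StmA

/-! Project LU (helper77), job LOGC, part 1: the closed subgroup theorem in a normed algebra. -/

set_option autoImplicit false
set_option linter.unusedSectionVars false

namespace Pool.Agent.Q38.LU.LogGen

open Set Filter Topology Metric
open scoped ContDiff
open Pool.Agent.Q77.LU

noncomputable section

variable {𝔸 : Type} [NormedRing 𝔸] [NormedAlgebra ℝ 𝔸] [CompleteSpace 𝔸]

theorem exp_cd : ContDiff ℝ ω (NormedSpace.exp : 𝔸 → 𝔸) := by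
  rw [contDiff_iff_contDiffAt]
  intro x
  exact (NormedSpace.exp_analytic (𝕂 := ℝ) x).contDiffAt

theorem exp_cont : Continuous (NormedSpace.exp : 𝔸 → 𝔸) := (exp_cd (𝔸 := 𝔸)).continuous

theorem exp_zero' : NormedSpace.exp (0 : 𝔸) = 1 := NormedSpace.exp_zero

theorem exp_add' (x : 𝔸) (s t : ℝ) :
    NormedSpace.exp ((s + t) • x) = NormedSpace.exp (s • x) * NormedSpace.exp (t • x) := by
  let _ : NormedAlgebra ℚ 𝔸 := NormedAlgebra.restrictScalars ℚ ℝ 𝔸
  rw [add_smul]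
  exact NormedSpace.exp_add_of_commute (((Commute.refl x).smul_left s).smul_right t)

theorem exp_neg_mul (x : 𝔸) : NormedSpace.exp (-x) * NormedSpace.exp x = 1 := by
  have := exp_add' x (-1) 1
  rw [neg_add_cancel, zero_smul, exp_zero', one_smul, neg_one_smul] at this
  exact this.symm

theorem exp_mul_neg (x : 𝔸) : NormedSpace.exp x * NormedSpace.exp (-x) = 1 := by
  have := exp_add' x 1 (-1)
  rw [add_neg_cancel, zero_smul, exp_zero', one_smul, neg_one_smul] at this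
  exact this.symm

/-- the data of a closed subgroup -/
structure CS {n : ℕ} (L : (Fin n → ℝ) →L[ℝ] 𝔸) (S : Set 𝔸) : Prop where
  inj : Function.Injective L
  closed : IsClosed S
  mul : ∀ x ∈ S, ∀ y ∈ S, x * y ∈ S
  neg : ∀ w, NormedSpace.exp w ∈ S → NormedSpace.exp (-w) ∈ S
  ex : ∀ v, NormedSpace.exp (L v) ∈ S
  full : ∀ Y, (∀ t : ℝ, NormedSpace.exp (t • Y) ∈ S) → ∃ v, L v = Y

theorem one_mem {n : ℕ} {L : (Fin n → ℝ) →L[ℝ] 𝔸} {S : Set 𝔸} (h : CS L S) : (1 : 𝔸) ∈ S := by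
  have := h.ex 0
  rwa [map_zero, exp_zero'] at this

theorem nat_mem {n : ℕ} {L : (Fin n → ℝ) →L[ℝ] 𝔸} {S : Set 𝔸} (h : CS L S) {w : 𝔸}
    (hw : NormedSpace.exp w ∈ S) (m : ℕ) : NormedSpace.exp ((m : ℝ) • w) ∈ S := by
  induction m with
  | zero =>
    rw [Nat.cast_zero, zero_smul, exp_zero']
    exact one_mem h
  | succ m ih =>
    rw [Nat.cast_succ, exp_add', one_smul]
    exact h.mul _ ih _ hw

theorem int_mem {n : ℕ} {L : (Fin n → ℝ) →L[ℝ] 𝔸} {S : Set 𝔸} (h : CS L S) {w : 𝔸}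
    (hw : NormedSpace.exp w ∈ S) (m : ℤ) : NormedSpace.exp ((m : ℝ) • w) ∈ S := by
  obtain ⟨k, rfl | rfl⟩ := m.eq_nat_or_neg
  · exact_mod_cast nat_mem h hw k
  · have := nat_mem h (h.neg w hw) k
    rw [smul_neg] at this
    push_cast
    rwa [neg_smul]

theorem tendsto_floor {c : ℕ → ℝ} (hc : Tendsto c atTop (𝓝 0)) (hpos : ∀ a, 0 < c a) (t : ℝ) :
    Tendsto (fun a => (⌊t / c a⌋ : ℝ) * c a) atTop (𝓝 t) := by
  have h1 : Tendsto (fun a => t - c a) atTop (𝓝 t) := by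
    simpa using (tendsto_const_nhds (x := t)).sub hc
  refine tendsto_of_tendsto_of_tendsto_of_le_of_le h1 (tendsto_const_nhds (x := t)) ?_ ?_
  · intro a
    have ha := hpos a
    have h2 := Int.sub_one_lt_floor (t / c a)
    have h3 : (t / c a - 1) * c a < (⌊t / c a⌋ : ℝ) * c a := by gcongr
    have h4 : (t / c a - 1) * c a = t - c a := by field_simp
    show t - c a ≤ (⌊t / c a⌋ : ℝ) * c a
    linarith
  · intro a
    have ha := hpos a
    have h2 := Int.floor_le (t / c a)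
    have h3 : (⌊t / c a⌋ : ℝ) * c a ≤ (t / c a) * c a := by gcongr
    have h4 : (t / c a) * c a = t := by field_simp
    show (⌊t / c a⌋ : ℝ) * c a ≤ t
    linarith

/-- limits of directions -/
theorem dir_mem {n : ℕ} {L : (Fin n → ℝ) →L[ℝ] 𝔸} {S : Set 𝔸} (h : CS L S) {z : ℕ → 𝔸} {u : 𝔸}
    (hz : Tendsto z atTop (𝓝 0)) (hz0 : ∀ k, z k ≠ 0) (hzS : ∀ k, NormedSpace.exp (z k) ∈ S)
    (hu : Tendsto (fun k => ‖z k‖⁻¹ • z k) atTop (𝓝 u)) : ∃ v, L v = u := by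
  apply h.full
  intro t
  have h1 := tendsto_floor (c := fun a => ‖z a‖) (by simpa using hz.norm)
    (fun a => norm_pos_iff.2 (hz0 a)) t
  have h2 : Tendsto (fun a => NormedSpace.exp (((⌊t / ‖z a‖⌋ : ℝ) * ‖z a‖) • (‖z a‖⁻¹ • z a)))
      atTop (𝓝 (NormedSpace.exp (t • u))) := (exp_cont.tendsto _).comp (h1.smul hu)
  refine h.closed.mem_of_tendsto h2 (Eventually.of_forall fun a => ?_)
  rw [smul_smul, mul_assoc, mul_inv_cancel₀ (norm_ne_zero_iff.2 (hz0 a)), mul_one]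
  exact int_mem h (hzS a) _

variable {n : ℕ} (L : (Fin n → ℝ) →L[ℝ] 𝔸) (E' : Submodule ℝ 𝔸)

/-- the map `Φ (v, w) = exp (L v) exp w` -/
def Ph (x : (Fin n → ℝ) × E') : 𝔸 := NormedSpace.exp (L x.1) * NormedSpace.exp (x.2 : 𝔸)

theorem Ph_cd : ContDiff ℝ ω (Ph L E') := by
  have h1 : ContDiff ℝ ω (fun x : (Fin n → ℝ) × E' => NormedSpace.exp (L x.1)) :=
    exp_cd.comp (L.contDiff.comp contDiff_fst)
  have h2 : ContDiff ℝ ω (fun x : (Fin n → ℝ) × E' => NormedSpace.exp (E'.subtypeL x.2)) :=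
    exp_cd.comp (E'.subtypeL.contDiff.comp contDiff_snd)
  exact h1.mul h2

/-- derivative at zero -/
def dPh : ((Fin n → ℝ) × E') →L[ℝ] 𝔸 :=
  L.comp (ContinuousLinearMap.fst ℝ _ _) + E'.subtypeL.comp (ContinuousLinearMap.snd ℝ _ _)

theorem Ph_deriv : HasFDerivAt (Ph L E') (dPh L E') 0 := by
  have h0 : HasFDerivAt (NormedSpace.exp : 𝔸 → 𝔸) (1 : 𝔸 →L[ℝ] 𝔸) 0 :=
    (hasStrictFDerivAt_exp_zero (𝕂 := ℝ)).hasFDerivAt
  have h1 : HasFDerivAt (fun x : (Fin n → ℝ) × E' => NormedSpace.exp (L x.1))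
      (L.comp (ContinuousLinearMap.fst ℝ _ _)) 0 := by
    have h2 : HasFDerivAt (fun x : (Fin n → ℝ) × E' => L x.1)
        (L.comp (ContinuousLinearMap.fst ℝ _ _)) 0 := by
      have := (L.comp (ContinuousLinearMap.fst ℝ (Fin n → ℝ) E')).hasFDerivAt (x := 0)
      exact this
    have h3 : HasFDerivAt (NormedSpace.exp : 𝔸 → 𝔸) (1 : 𝔸 →L[ℝ] 𝔸)
        ((fun x : (Fin n → ℝ) × E' => L x.1) 0) := by
      simpa using h0
    exact HasFDerivAt.comp (g := NormedSpace.exp) (f := fun x : (Fin n → ℝ) × E' => L x.1) 0 h3 h2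
  have h2 : HasFDerivAt (fun x : (Fin n → ℝ) × E' => NormedSpace.exp (E'.subtypeL x.2))
      (E'.subtypeL.comp (ContinuousLinearMap.snd ℝ _ _)) 0 := by
    have h2 : HasFDerivAt (fun x : (Fin n → ℝ) × E' => E'.subtypeL x.2)
        (E'.subtypeL.comp (ContinuousLinearMap.snd ℝ _ _)) 0 := by
      have := (E'.subtypeL.comp (ContinuousLinearMap.snd ℝ (Fin n → ℝ) E')).hasFDerivAt (x := 0)
      exact this
    have h3 : HasFDerivAt (NormedSpace.exp : 𝔸 → 𝔸) (1 : 𝔸 →L[ℝ] 𝔸)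
        ((fun x : (Fin n → ℝ) × E' => E'.subtypeL x.2) 0) := by
      simpa using h0
    exact HasFDerivAt.comp (g := NormedSpace.exp)
      (f := fun x : (Fin n → ℝ) × E' => E'.subtypeL x.2) 0 h3 h2
  have h3 := h1.mul' h2
  refine h3.congr_fderiv ?_
  ext x <;> simp [dPh]

theorem Ph_zero : Ph L E' 0 = 1 := by
  simp [Ph]

theorem exists_equiv [FiniteDimensional ℝ 𝔸] {L : (Fin n → ℝ) →L[ℝ] 𝔸} (hL : Function.Injective L)
    {E' : Submodule ℝ 𝔸} (hE : IsCompl (LinearMap.range L.toLinearMap) E') :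
    ∃ e : ((Fin n → ℝ) × E') ≃L[ℝ] 𝔸, (e : ((Fin n → ℝ) × E') →L[ℝ] 𝔸) = dPh L E' := by
  have hb : Function.Bijective (dPh L E') := by
    constructor
    · rw [injective_iff_map_eq_zero]
      rintro ⟨v, w⟩ h
      have h1 : L v + (w : 𝔸) = 0 := h
      have h2 : L v ∈ LinearMap.range L.toLinearMap ⊓ E' := by
        refine ⟨⟨v, rfl⟩, ?_⟩
        have : L v = -(w : 𝔸) := eq_neg_of_add_eq_zero_left h1
        rw [this]
        exact E'.neg_mem w.2
      rw [hE.inf_eq_bot, Submodule.mem_bot] at h2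
      have h3 : v = 0 := hL (by rw [h2, map_zero])
      have h4 : (w : 𝔸) = 0 := by rwa [h2, zero_add] at h1
      exact Prod.ext h3 (Subtype.ext h4)
    · intro y
      have h1 : y ∈ LinearMap.range L.toLinearMap ⊔ E' := by
        rw [hE.sup_eq_top]
        trivial
      obtain ⟨_, ⟨v, rfl⟩, w, hw, h2⟩ := Submodule.mem_sup.1 h1
      exact ⟨(v, ⟨w, hw⟩), h2⟩
  refine ⟨(LinearEquiv.ofBijective (dPh L E').toLinearMap hb).toContinuousLinearEquiv, ?_⟩
  ext x <;> rfl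

theorem n2_lt {v : Fin n → ℝ} {δ : ℝ} (hδ : 0 < δ) (h : n2 v < δ ^ 2) : ‖v‖ < δ := by
  rw [pi_norm_lt_iff hδ]
  intro i
  rw [Real.norm_eq_abs]
  apply abs_lt_of_sq_lt_sq _ hδ.le
  refine lt_of_le_of_lt ?_ h
  exact Finset.single_le_sum (f := fun i => v i ^ 2) (fun j _ => sq_nonneg (v j)) (Finset.mem_univ i)

theorem n2_cont : Continuous (fun v : Fin n → ℝ => n2 v) := by
  unfold n2
  fun_prop

/-- closed subgroup theorem -/
theorem main [FiniteDimensional ℝ 𝔸] {L : (Fin n → ℝ) →L[ℝ] 𝔸} {S : Set 𝔸} (h : CS L S) :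
    ∃ (lg : 𝔸 → (Fin n → ℝ)) (ρ ε : ℝ), 0 < ρ ∧ 0 < ε ∧ ContDiff ℝ ∞ lg ∧
      (∀ v, n2 v < ρ ^ 2 → lg (NormedSpace.exp (L v)) = v) ∧
      ∀ g ∈ S, ‖g - 1‖ < ε → n2 (lg g) < ρ ^ 2 ∧ g = NormedSpace.exp (L (lg g)) := by
  obtain ⟨E', hE⟩ := Submodule.exists_isCompl (LinearMap.range L.toLinearMap)
  obtain ⟨e, he⟩ := exists_equiv h.inj hE
  have hcd : ContDiffAt ℝ ω (Ph L E') 0 := (Ph_cd L E').contDiffAt
  have hd : HasFDerivAt (Ph L E') (e : ((Fin n → ℝ) × E') →L[ℝ] 𝔸) 0 := by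
    rw [he]
    exact Ph_deriv L E'
  obtain ⟨PH, hPH, hsrc⟩ : ∃ PH : OpenPartialHomeomorph ((Fin n → ℝ) × E') 𝔸,
      (PH : (Fin n → ℝ) × E' → 𝔸) = Ph L E' ∧ 0 ∈ PH.source :=
    ⟨hcd.toOpenPartialHomeomorph (Ph L E') hd (by simp),
      ContDiffAt.toOpenPartialHomeomorph_coe _ _ _,
      ContDiffAt.mem_toOpenPartialHomeomorph_source _ _ _⟩
  have hP0 : PH 0 = 1 := by rw [hPH, Ph_zero]
  have hs1 : PH.symm 1 = 0 := by rw [← hP0, PH.left_inv hsrc]
  have h1t : (1 : 𝔸) ∈ PH.target := by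
    rw [← hP0]
    exact PH.map_source hsrc
  have hsymm : ContDiffAt ℝ ω PH.symm 1 := by
    refine PH.contDiffAt_symm (f₀' := e) h1t ?_ ?_
    · rw [hs1, hPH]
      exact hd
    · rw [hs1, hPH]
      exact hcd
  have hev : ∀ᶠ y in 𝓝 (1 : 𝔸), ContDiffAt ℝ ω PH.symm y ∧ y ∈ PH.target :=
    (hsymm.eventually (by simp)).and (PH.open_target.mem_nhds h1t)
  obtain ⟨r, hr, hball⟩ := Metric.eventually_nhds_iff_ball.1 hev
  let χ : ContDiffBump (1 : 𝔸) := ⟨r / 4, r / 2, by linarith, by linarith⟩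
  obtain ⟨lg, hlg⟩ : ∃ lg : 𝔸 → (Fin n → ℝ), lg = fun y => χ y • (PH.symm y).1 := ⟨_, rfl⟩
  have hlgcd : ContDiff ℝ ∞ lg := by
    rw [contDiff_iff_contDiffAt]
    intro y
    by_cases hy : y ∈ ball (1 : 𝔸) r
    · rw [hlg]
      have h1 : ContDiffAt ℝ ∞ PH.symm y := (hball y hy).1.of_le (by simp)
      exact χ.contDiffAt.smul (contDiffAt_fst.comp y h1)
    · have h2 : lg =ᶠ[𝓝 y] fun _ => 0 := by
        have h3 : y ∈ (closedBall (1 : 𝔸) (r / 2))ᶜ := by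
          intro h4
          apply hy
          rw [mem_closedBall] at h4
          rw [mem_ball]
          linarith
        filter_upwards [isClosed_closedBall.isOpen_compl.mem_nhds h3] with z hz
        rw [hlg]
        show χ z • (PH.symm z).1 = 0
        rw [χ.zero_of_le_dist, zero_smul]
        show r / 2 ≤ dist z 1
        rw [mem_compl_iff, mem_closedBall, not_le] at hz
        exact hz.le
      exact contDiffAt_const.congr_of_eventuallyEq h2
  have hlg1 : ∀ y, dist y 1 < r / 4 → lg y = (PH.symm y).1 := by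
    intro y hy
    rw [hlg]
    show χ y • (PH.symm y).1 = _
    rw [χ.one_of_mem_closedBall (by rw [mem_closedBall]; exact hy.le), one_smul]
  have hlg0 : lg 1 = 0 := by
    rw [hlg1 1 (by rw [dist_self]; linarith), hs1]
    rfl
  -- small elements
  have hv : ∀ᶠ v in 𝓝 (0 : Fin n → ℝ), ((v, 0) : (Fin n → ℝ) × E') ∈ PH.source ∧
      dist (NormedSpace.exp (L v)) 1 < r / 4 := by
    refine Filter.Eventually.and ?_ ?_
    · have c1 : Continuous fun v : Fin n → ℝ => ((v, 0) : (Fin n → ℝ) × E') := by fun_prop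
      exact c1.continuousAt.eventually (PH.open_source.mem_nhds hsrc)
    · have c1 : Continuous fun v : Fin n → ℝ => dist (NormedSpace.exp (L v)) 1 :=
        (exp_cont.comp L.continuous).dist continuous_const
      have c2 := c1.tendsto 0
      rw [map_zero, exp_zero', dist_self] at c2
      exact c2.eventually (gt_mem_nhds (by linarith : (0 : ℝ) < r / 4))
  obtain ⟨ρ, hρ, hρb⟩ := Metric.eventually_nhds_iff_ball.1 hv
  refine ⟨lg, ρ, ?_⟩
  have hpart1 : ∀ v, n2 v < ρ ^ 2 → lg (NormedSpace.exp (L v)) = v := by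
    intro v hv
    have hvb : v ∈ ball (0 : Fin n → ℝ) ρ := by
      rw [mem_ball_zero_iff]
      exact n2_lt hρ hv
    obtain ⟨h1, h2⟩ := hρb v hvb
    rw [hlg1 _ h2]
    have h3 : NormedSpace.exp (L v) = PH (v, 0) := by
      rw [hPH]
      simp [Ph]
    rw [h3, PH.left_inv h1]
  by_contra hcon
  have hcon2 : ∀ ε : ℝ, 0 < ε → ∃ g ∈ S, ‖g - 1‖ < ε ∧
      ¬ (n2 (lg g) < ρ ^ 2 ∧ g = NormedSpace.exp (L (lg g))) := by
    intro ε hε
    by_contra h'
    push Not at h'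
    apply hcon
    refine ⟨ε, hρ, hε, hlgcd, hpart1, fun g hg hgε => ?_⟩
    by_contra h''
    exact h'' (h' g hg hgε)
  have hev2 : ∀ᶠ g in 𝓝 (1 : 𝔸), dist g 1 < r / 4 ∧ n2 (lg g) < ρ ^ 2 := by
    refine Filter.Eventually.and ?_ ?_
    · exact Metric.eventually_nhds_iff_ball.2 ⟨r / 4, by linarith, fun y hy => hy⟩
    · have c1 : Continuous fun g => n2 (lg g) := n2_cont.comp hlgcd.continuous
      have c2 := c1.tendsto 1
      rw [hlg0] at c2
      have : n2 (0 : Fin n → ℝ) = 0 := by simp [n2]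
      rw [this] at c2
      exact c2.eventually (gt_mem_nhds (by positivity : (0 : ℝ) < ρ ^ 2))
  obtain ⟨ε0, hε0, hε0b⟩ := Metric.eventually_nhds_iff_ball.1 hev2
  choose g hgS hg1 hg2 using fun k : ℕ => hcon2 (min ε0 (1 / ((k : ℝ) + 1)))
    (lt_min hε0 (by positivity))
  have hgb : ∀ k, dist (g k) 1 < r / 4 ∧ n2 (lg (g k)) < ρ ^ 2 := fun k =>
    hε0b _ (by
      rw [mem_ball, dist_eq_norm]
      exact (hg1 k).trans_le (min_le_left _ _))
  have hgt : ∀ k, g k ∈ PH.target := fun k => (hball (g k) (by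
    rw [mem_ball]
    linarith [(hgb k).1])).2
  obtain ⟨x, hx⟩ : ∃ x : ℕ → (Fin n → ℝ) × E', x = fun k => PH.symm (g k) := ⟨_, rfl⟩
  have hgx : ∀ k, g k = NormedSpace.exp (L (x k).1) * NormedSpace.exp ((x k).2 : 𝔸) := by
    intro k
    have h1 : PH (PH.symm (g k)) = g k := PH.right_inv (hgt k)
    rw [hPH] at h1
    rw [hx]
    exact h1.symm
  have hlgx : ∀ k, lg (g k) = (x k).1 := by
    intro k
    rw [hlg1 _ (hgb k).1, hx]
  have hw0 : ∀ k, ((x k).2 : 𝔸) ≠ 0 := by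
    intro k h0
    apply hg2 k
    refine ⟨(hgb k).2, ?_⟩
    rw [hlgx]
    have := hgx k
    rw [h0, exp_zero', mul_one] at this
    exact this
  have hwS : ∀ k, NormedSpace.exp ((x k).2 : 𝔸) ∈ S := by
    intro k
    have h1 : NormedSpace.exp ((x k).2 : 𝔸) = NormedSpace.exp (L (-(x k).1)) * g k := by
      rw [hgx k, ← mul_assoc, map_neg, exp_neg_mul, one_mul]
    rw [h1]
    exact h.mul _ (h.ex _) _ (hgS k)
  have hg1' : Tendsto g atTop (𝓝 1) := by
    rw [tendsto_iff_norm_sub_tendsto_zero]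
    refine squeeze_zero (fun _ => norm_nonneg _) (fun k => (hg1 k).le.trans (min_le_right _ _)) ?_
    exact tendsto_one_div_add_atTop_nhds_zero_nat
  have hx0 : Tendsto x atTop (𝓝 0) := by
    have h1 : Tendsto PH.symm (𝓝 1) (𝓝 (PH.symm 1)) := PH.continuousAt_symm h1t
    rw [hs1] at h1
    rw [hx]
    exact h1.comp hg1'
  have hz0 : Tendsto (fun k => ((x k).2 : 𝔸)) atTop (𝓝 0) := by
    have h1 : Continuous fun y : (Fin n → ℝ) × E' => (y.2 : 𝔸) := by fun_prop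
    have h2 := (h1.tendsto 0).comp hx0
    exact h2
  have : ProperSpace 𝔸 := FiniteDimensional.proper_real 𝔸
  have hsph : ∀ k, (‖((x k).2 : 𝔸)‖)⁻¹ • ((x k).2 : 𝔸) ∈ Metric.sphere (0 : 𝔸) 1 := by
    intro k
    have h1 : ‖((x k).2 : 𝔸)‖ ≠ 0 := norm_ne_zero_iff.mpr (hw0 k)
    simp only [mem_sphere_iff_norm, sub_zero, norm_smul, norm_inv, norm_norm]
    exact inv_mul_cancel₀ h1
  obtain ⟨u, hus, φ, hφ, hφu⟩ := (isCompact_sphere (0 : 𝔸) 1).tendsto_subseq hsph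
  have hun : ‖u‖ = 1 := by simpa using hus
  have huE : u ∈ E' := by
    have hcl : IsClosed (E' : Set 𝔸) := Submodule.closed_of_finiteDimensional E'
    refine hcl.mem_of_tendsto hφu (Eventually.of_forall fun k => ?_)
    exact E'.smul_mem _ (x (φ k)).2.2
  obtain ⟨v, hv⟩ := dir_mem h (z := fun k => ((x (φ k)).2 : 𝔸)) (u := u)
    (hz0.comp hφ.tendsto_atTop) (fun k => hw0 _) (fun k => hwS _) hφu
  have h2 : u ∈ LinearMap.range L.toLinearMap ⊓ E' := ⟨⟨v, hv⟩, huE⟩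
  rw [hE.inf_eq_bot, Submodule.mem_bot] at h2
  rw [h2, norm_zero] at hun
  exact zero_ne_one hun

end

end Pool.Agent.Q38.LU.LogGen
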