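import Pool.Agent.Q77.LU.StmH
import Pool.Agent.Q38.LU.LogGen

/-! Project LU (helper77), job LOGC: closed subgroup theorem in a smooth form. -/

set_option autoImplicit false

namespace Pool.Agent.Q38.LU.LOGC

open MeasureTheory Matrix Set Filter Topology
open scoped ContDiff Matrix.Norms.Frobenius
open Pool.Agent.Q77.LU

noncomputable section

variable {N n : ℕ} {G : Subgroup (UU N)} (B : LieBasis G n)

/-- `lin` as a linear map -/
def linL : (Fin n → ℝ) →ₗ[ℝ] Mt N where
  toFun := lin B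
  map_add' v w := by simp [lin, add_smul, Finset.sum_add_distrib]
  map_smul' c v := by simp [lin, Finset.smul_sum, smul_smul]

/-- `lin` as a continuous linear map -/
def linC : (Fin n → ℝ) →L[ℝ] Mt N := LinearMap.toContinuousLinearMap (linL B)

theorem linC_apply (v : Fin n → ℝ) : linC B v = lin B v := rfl

theorem lin_inj {v : Fin n → ℝ} (h : lin B v = 0) : v = 0 := by
  funext a
  have h1 : (trace ((B.X a)ᴴ * lin B v)).re = v a := by
    simp only [lin, Finset.mul_sum, Matrix.mul_smul, Matrix.trace_sum, Matrix.trace_smul,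
      Complex.re_sum, Complex.real_smul, Complex.re_ofReal_mul, B.orth]
    simp
  rw [h] at h1
  simpa using h1.symm

theorem mem_span {Y : Mt N} (h : Y ∈ Submodule.span ℝ (Set.range B.X)) : ∃ v, lin B v = Y := by
  obtain ⟨c, hc⟩ := (Submodule.mem_span_range_iff_exists_fun ℝ).1 h
  exact ⟨c, hc⟩

/-- the matrices of the group -/
def SG (G : Subgroup (UU N)) : Set (Mt N) := {M | ∃ g : G, Q77.LU.mt g = M}

/-- matrices of the group are closed -/
theorem closed_mt (hG : IsClosed (G : Set (UU N))) : IsClosed (SG G) := by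
  have h1 : IsClosed {U : Mt N | U ∈ Matrix.unitaryGroup (Fin N) ℂ} := isClosed_unitary
  have h2 : Topology.IsClosedEmbedding (Subtype.val : UU N → Mt N) :=
    IsClosed.isClosedEmbedding_subtypeVal h1
  have h3 := h2.isClosedMap _ hG
  have h4 : SG G = (Subtype.val : UU N → Mt N) '' (G : Set (UU N)) := by
    ext M
    constructor
    · rintro ⟨g, hg⟩
      exact ⟨g.1, g.2, hg⟩
    · rintro ⟨g, hg, hM⟩
      exact ⟨⟨g, hg⟩, hM⟩
  rw [h4]
  exact h3

theorem mt_mul (g h : G) : Q77.LU.mt (g * h) = Q77.LU.mt g * Q77.LU.mt h := rfl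

theorem mt_one : Q77.LU.mt (1 : G) = 1 := rfl

theorem cs (hE : S_EXPG) (hG : IsClosed (G : Set (UU N))) : LogGen.CS (linC B) (SG G) where
  inj := by
    intro v w hvw
    have h0 : lin B v = lin B w := hvw
    have h1 : lin B (v - w) = 0 := by
      have h2 : linL B (v - w) = linL B v - linL B w := map_sub (linL B) v w
      have h3 : linL B v = linL B w := h0
      rw [h3, sub_self] at h2
      exact h2
    exact sub_eq_zero.1 (lin_inj B h1)
  closed := closed_mt hG
  mul := by
    rintro _ ⟨g, rfl⟩ _ ⟨h, rfl⟩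
    exact ⟨g * h, mt_mul g h⟩
  neg := by
    rintro w ⟨g, hg⟩
    refine ⟨g⁻¹, ?_⟩
    have h1 : Q77.LU.mt g⁻¹ * Q77.LU.mt g = 1 := by rw [← mt_mul, inv_mul_cancel, mt_one]
    have h2 : Q77.LU.mt g * NormedSpace.exp (-w) = 1 := by
      rw [hg]
      exact LogGen.exp_mul_neg w
    calc Q77.LU.mt g⁻¹ = Q77.LU.mt g⁻¹ * (Q77.LU.mt g * NormedSpace.exp (-w)) := by
          rw [h2, mul_one]
      _ = NormedSpace.exp (-w) := by rw [← mul_assoc, h1, one_mul]
  ex := fun v => hE N n G hG B v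
  full := fun Y hY => mem_span B (B.full Y hY)

theorem t_LOGC (h : S_EXPG) : S_LOGC := by
  intro N n G hG B
  obtain ⟨lg, ρ, ε, hρ, hε, h1, h2, h3⟩ := LogGen.main (cs B h hG)
  exact ⟨lg, ρ, ε, hρ, hε, h1, h2, fun g hg => h3 _ ⟨g, rfl⟩ hg⟩

end

end Pool.Agent.Q38.LU.LOGC
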