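import Pool.Agent.Q77.LU.StmU
import Pool.Agent.Q154.LU.CHART

/-!
# Project LU, uniform version, job CHARTU: assembly of the chart
-/

set_option autoImplicit false

namespace Pool.Agent.Q38.LU

open MeasureTheory Matrix Set Filter Topology
open scoped ContDiff Matrix.Norms.Frobenius
open Pool.Agent.Q77.LU
open Pool.Agent.Q154.LU (vred_nonneg vred_hom continuous_vred n2_nonneg nx_nonneg lt_sq gCA_nonneg)

noncomputable section

variable {N n D l : ℕ} {G : Subgroup (UU N)} [NeZero l] {B : LieBasis G n}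

theorem UniR_mono {dc : Dec B D l} {r R : ℝ} (h : UniR dc R) (hr : 0 < r) (hrR : r ≤ R) :
    UniR dc r where
  pos := hr
  uniq := fun γ z x y hz hx hy hxy => h.uniq γ z x y hz (lt_sq hx hr hrR) (lt_sq hy hr hrR) hxy
  opn := fun ρ h1 h2 => h.opn ρ h1 (h2.trans hrR)

theorem InvR_mono {dc : Dec B D l} {r R : ℝ} (h : InvR dc R) (hr : 0 < r) (hrR : r ≤ R) :
    InvR dc r where
  pos := hr
  inv := by
    obtain ⟨Ξ, h1, h2⟩ := h.inv
    exact ⟨Ξ, h1, fun x hx => h2 x (lt_sq hx hr hrR)⟩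
  opn := fun ρ h1 h2 => h.opn ρ h1 (h2.trans hrR)
  bal := fun ρ h1 h2 V hV => h.bal ρ h1 (h2.trans hrR) V fun e =>
    (hV e).trans_le (mul_le_mul_of_nonneg_right hrR h1.le)

theorem one_le_Cl {C : ℝ} {p : ℕ} (hC : 1 ≤ C) : 1 ≤ C * (l : ℝ) ^ p := by
  have hl : (1 : ℝ) ≤ l := by exact_mod_cast NeZero.one_le
  have h1 : (1 : ℝ) ≤ (l : ℝ) ^ p := one_le_pow₀ hl
  nlinarith

theorem Cl_le {C : ℝ} {p q : ℕ} (hC : 0 ≤ C) (hpq : p ≤ q) :
    C * (l : ℝ) ^ p ≤ C * (l : ℝ) ^ q := by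
  have hl : (1 : ℝ) ≤ l := by exact_mod_cast NeZero.one_le
  exact mul_le_mul_of_nonneg_left (pow_le_pow_right₀ hl hpq) hC

/-- **CHARTU** -/
theorem t_CHARTU (h1 : S_TAYLU) (h2 : S_SIM) (h3 : S_CHIU) (h4 : S_UNIQU) (h5 : S_INVU)
    (h6 : S_KINU) (h7 : S_LIFTU) (h8 : S_SYMM) (h9 : S_HC) (h10 : S_OMU) : S_CHARTU := by
  intro N n D G hG B mG bG μ hμ hμ' hNC hD
  obtain ⟨κ, hκ, hsim⟩ := h2 N n D G hG B hNC hD
  obtain ⟨p1, C1, hC1, htay⟩ := h1 N n D G hG B hNC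
  obtain ⟨p3, C3, hC3, hchi⟩ := h3 N n D G hG B μ hNC
  obtain ⟨p4, C4, hC4, huni⟩ := h4 N n D G hG B hNC
  obtain ⟨p5, C5, hC5, hinv⟩ := h5 N n D G hG B
  obtain ⟨p6, C6, hC6, hkin⟩ := h6 N n D G hG B
  obtain ⟨p7, C7, hC7, hom⟩ := h10 N n D G hG B
  have hDn : (0 : ℝ) ≤ (D * n + n : ℕ) := Nat.cast_nonneg _
  refine ⟨p1 + p3 + p4 + p5 + p6 + p7 + D, 2 * (C1 + C3 + C4 + C5 + C6) + C7 + (D * n + n : ℕ) + 1,
    κ, by linarith, hκ, ?_⟩
  intro l hl dc
  obtain ⟨Λ, hΛ⟩ : ∃ Λ : ℝ, Λ = (2 * (C1 + C3 + C4 + C5 + C6) + C7 + (D * n + n : ℕ) + 1) *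
    (l : ℝ) ^ (p1 + p3 + p4 + p5 + p6 + p7 + D) := ⟨_, rfl⟩
  rw [← hΛ]
  obtain ⟨M1, hM1⟩ : ∃ M1 : ℝ, M1 = C1 * (l : ℝ) ^ p1 := ⟨_, rfl⟩
  obtain ⟨M3, hM3⟩ : ∃ M3 : ℝ, M3 = C3 * (l : ℝ) ^ p3 := ⟨_, rfl⟩
  obtain ⟨M4, hM4⟩ : ∃ M4 : ℝ, M4 = C4 * (l : ℝ) ^ p4 := ⟨_, rfl⟩
  obtain ⟨M5, hM5⟩ : ∃ M5 : ℝ, M5 = C5 * (l : ℝ) ^ p5 := ⟨_, rfl⟩
  obtain ⟨M6, hM6⟩ : ∃ M6 : ℝ, M6 = C6 * (l : ℝ) ^ p6 := ⟨_, rfl⟩
  obtain ⟨M7, hM7⟩ : ∃ M7 : ℝ, M7 = C7 * (l : ℝ) ^ p7 := ⟨_, rfl⟩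
  have g1 : 1 ≤ M1 := by rw [hM1]; exact one_le_Cl hC1
  have g3 : 1 ≤ M3 := by rw [hM3]; exact one_le_Cl hC3
  have g4 : 1 ≤ M4 := by rw [hM4]; exact one_le_Cl hC4
  have g5 : 1 ≤ M5 := by rw [hM5]; exact one_le_Cl hC5
  have g6 : 1 ≤ M6 := by rw [hM6]; exact one_le_Cl hC6
  have g7 : 1 ≤ M7 := by rw [hM7]; exact one_le_Cl hC7
  obtain ⟨P, hP⟩ : ∃ P : ℝ, P = (l : ℝ) ^ (p1 + p3 + p4 + p5 + p6 + p7 + D) := ⟨_, rfl⟩
  have hP1 : 1 ≤ P := by
    have := one_le_Cl (l := l) (C := 1) (p := p1 + p3 + p4 + p5 + p6 + p7 + D) le_rfl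
    rw [hP]
    linarith
  have k1 : M1 ≤ C1 * P := by rw [hM1, hP]; exact Cl_le (by linarith) (by omega)
  have k3 : M3 ≤ C3 * P := by rw [hM3, hP]; exact Cl_le (by linarith) (by omega)
  have k4 : M4 ≤ C4 * P := by rw [hM4, hP]; exact Cl_le (by linarith) (by omega)
  have k5 : M5 ≤ C5 * P := by rw [hM5, hP]; exact Cl_le (by linarith) (by omega)
  have k6 : M6 ≤ C6 * P := by rw [hM6, hP]; exact Cl_le (by linarith) (by omega)
  have k7 : M7 ≤ C7 * P := by rw [hM7, hP]; exact Cl_le (by linarith) (by omega)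
  have kD : (l : ℝ) ^ D ≤ P := by
    have := Cl_le (l := l) (C := 1) (p := D) (q := p1 + p3 + p4 + p5 + p6 + p7 + D) zero_le_one
      (by omega)
    rw [hP]
    linarith
  have kn : (0 : ℝ) ≤ (D * n + n : ℕ) * P := by positivity
  have hΛ' : Λ = 2 * (C1 * P + C3 * P + C4 * P + C5 * P + C6 * P) + C7 * P +
      (D * n + n : ℕ) * P + P := by
    rw [hΛ, ← hP]
    ring
  have hS : 2 * (M1 + M3 + M4 + M5 + M6) ≤ Λ := by rw [hΛ']; linarith
  have hΛ1 : 1 ≤ Λ := by linarith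
  have hΛ0 : 0 < Λ := by linarith
  obtain ⟨r, hr⟩ : ∃ r : ℝ, r = (2 * (M1 + M3 + M4 + M5 + M6))⁻¹ := ⟨_, rfl⟩
  have hSp : 0 < 2 * (M1 + M3 + M4 + M5 + M6) := by linarith
  have hr0 : 0 < r := by rw [hr]; exact inv_pos.2 hSp
  have hrle : ∀ M : ℝ, 1 ≤ M → M ≤ 2 * (M1 + M3 + M4 + M5 + M6) → r ≤ M⁻¹ := by
    intro M h1 h2
    rw [hr]
    exact inv_anti₀ (by linarith) h2
  have hr1 : r ≤ 1 := by
    have := hrle 1 le_rfl (by linarith)
    rwa [inv_one] at this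
  have hrr1 : r ≤ M1⁻¹ := hrle _ g1 (by linarith)
  have hrr3 : r ≤ M3⁻¹ := hrle _ g3 (by linarith)
  have hrr4 : r ≤ M4⁻¹ := hrle _ g4 (by linarith)
  have hrr5 : r ≤ M5⁻¹ := hrle _ g5 (by linarith)
  have hr6 : M6 * r ^ 2 ≤ 1 / 2 := by
    have e1 : 2 * M6 * r ≤ 1 := by
      have e2 : r ≤ (2 * M6)⁻¹ := hrle _ (by linarith) (by linarith)
      calc 2 * M6 * r ≤ 2 * M6 * (2 * M6)⁻¹ := mul_le_mul_of_nonneg_left e2 (by linarith)
        _ = 1 := mul_inv_cancel₀ (by linarith)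
    nlinarith
  obtain ⟨A, hAs, hAt, hAb, htay'⟩ := htay l dc M1 hM1
  have hchi' := hchi l dc
  rw [← hM3] at hchi'
  obtain ⟨J, hJs, hJp, hJi, hJb, hint⟩ := hchi'.ex
  have huni' := huni l dc
  rw [← hM4] at huni'
  have hinv' := hinv l dc
  rw [← hM5] at hinv'
  have hsym := h8 N n D l G hG B dc
  obtain ⟨-, -, hmag, -⟩ := h9 N n D l G hG B
  have hwc : Continuous (fun x : (Fin D × Fin n → ℝ) × (Fin dc.M → ℝ) => magnetic (dc.ch x)) := by
    obtain ⟨f, hf, hfm⟩ := hmag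
    have e1 : (fun x : (Fin D × Fin n → ℝ) × (Fin dc.M → ℝ) => magnetic (dc.ch x)) =
        fun x => f (fun e => mt (dc.ch x e)) := by
      funext x
      exact hfm _
    rw [e1]
    exact hf.continuous.comp (hsym 1 0).2.2.2.2.2.2.2.2.continuous
  have hl0 : (0 : ℝ) < (l : ℝ) ^ D := by
    have : 0 < l := Nat.pos_of_ne_zero hl.out
    positivity
  have hl1 : (1 : ℝ) ≤ (l : ℝ) ^ D := one_le_pow₀ (by exact_mod_cast NeZero.one_le)
  let L : Loc (Fin D × Fin n) (Fin dc.M) :=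
    { v := vred B D
      cont := continuous_vred B D
      nonneg := vred_nonneg B D
      hom := vred_hom B D
      κ := κ
      pos := hκ
      simon := hsim
      om := dc.om
      ompos := dc.ompos
      c4 := ((l : ℝ) ^ D)⁻¹
      c4pos := inv_pos.mpr hl0
      A := A
      Asymm := hAs
      Atr := hAt
      K := max M1 (2 * M6)
      K0 := le_trans (by linarith) (le_max_left _ _)
      r := r
      rpos := hr0
      w := fun x => magnetic (dc.ch x)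
      wcont := hwc
      tay := by
        intro x hx
        have e1 : nx x ≤ M1⁻¹ ^ 2 := le_trans hx (pow_le_pow_left₀ hr0.le hrr1 2)
        refine le_trans (htay' x e1) ?_
        apply mul_le_mul_of_nonneg_right (le_max_left _ _)
        have e2 : 0 ≤ nr x.1 := Real.sqrt_nonneg _
        have e3 : 0 ≤ nr x.2 := Real.sqrt_nonneg _
        have e4 := vred_nonneg B D x.1
        have e5 := n2_nonneg x.1
        have e6 := n2_nonneg x.2
        positivity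
      J := J
      Jsm := hJs
      Jpos := hJp }
  have hkk : ∀ F : (Link D l → G) → ℝ, IsSmooth F → GaugeInv F → ∀ x, nx x < r ^ 2 →
      (1 - max M1 (2 * M6) * nx x) * (gC (fun z => F (dc.ch z)) x + gA (fun z => F (dc.ch z)) x) ≤
        ∑ e, ∑ a, dlink B e a F (dc.ch x) ^ 2 ∧
      ∑ e, ∑ a, dlink B e a F (dc.ch x) ^ 2 ≤
        (1 + max M1 (2 * M6) * nx x) *
          (gC (fun z => F (dc.ch z)) x + gA (fun z => F (dc.ch z)) x) := by
    intro F hF hFg x hx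
    have e0 : nx x < 1 := by
      have := lt_sq hx hr0 hr1
      rwa [one_pow] at this
    have e1 := hkin l dc F hF hFg x e0
    rw [← hM6] at e1
    have e2 : 0 ≤ gC (fun z => F (dc.ch z)) x + gA (fun z => F (dc.ch z)) x := gCA_nonneg _ _
    have e3 : 0 ≤ ∑ e, ∑ a, dlink B e a F (dc.ch x) ^ 2 :=
      Finset.sum_nonneg fun _ _ => Finset.sum_nonneg fun _ _ => sq_nonneg _
    have e4 : M6 * nx x ≤ 1 / 2 :=
      (mul_le_mul_of_nonneg_left hx.le (by linarith)).trans hr6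
    have e5 : 0 ≤ M6 * nx x := mul_nonneg (by linarith) (nx_nonneg x)
    have e6 : 2 * (M6 * nx x) ≤ max M1 (2 * M6) * nx x := by
      have := mul_le_mul_of_nonneg_right (le_max_right M1 (2 * M6)) (nx_nonneg x)
      linarith
    generalize (gC (fun z => F (dc.ch z)) x + gA (fun z => F (dc.ch z)) x) = g at *
    generalize (∑ e, ∑ a, dlink B e a F (dc.ch x) ^ 2) = S at *
    generalize M6 * nx x = a at *
    generalize max M1 (2 * M6) * nx x = b at *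
    rw [abs_le] at e1
    obtain ⟨e7, e8⟩ := e1
    constructor
    · have f1 : g ≤ (1 + a) * S := by linarith
      have f2 : (1 - b) * g ≤ (1 - a) * g := by
        apply mul_le_mul_of_nonneg_right _ e2
        linarith
      have f3 : (1 - a) * g ≤ (1 - a) * ((1 + a) * S) :=
        mul_le_mul_of_nonneg_left f1 (by linarith)
      have f4 : (1 - a) * ((1 + a) * S) = S - a ^ 2 * S := by ring
      have f5 : 0 ≤ a ^ 2 * S := by positivity
      linarith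
    · have f1 : (1 - a) * S ≤ g := by linarith
      have f2 : (1 + 2 * a) * g ≤ (1 + b) * g := by
        apply mul_le_mul_of_nonneg_right _ e2
        linarith
      have f3 : (1 + 2 * a) * ((1 - a) * S) ≤ (1 + 2 * a) * g :=
        mul_le_mul_of_nonneg_left f1 (by linarith)
      have f4 : (1 + 2 * a) * ((1 - a) * S) = S + a * (1 - 2 * a) * S := by ring
      have f5 : 0 ≤ a * (1 - 2 * a) * S := by
        apply mul_nonneg (mul_nonneg e5 (by linarith)) e3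
      linarith
  have hU := UniR_mono huni' hr0 hrr4
  have hI := InvR_mono hinv' hr0 hrr5
  refine ⟨L, ?_, ?_, le_rfl⟩
  · refine ⟨rfl, rfl, rfl, rfl, hJi, ?_, ?_, ?_, ?_, ?_⟩
    · intro ρ hρ hρr Φ h1 h2 h3 h4
      exact hint ρ hρ (le_trans hρr hrr3) Φ h1 h2 h3 h4
    · intro x ρ hx hρ hρr hO
      obtain ⟨γ, z, y, hz, hy, hxy⟩ := hO
      obtain ⟨-, hxs⟩ := hU.uniq γ z x y hz hx (lt_sq hy hρ hρr) hxy
      have e1 := hsym (γ 0) y
      have e2 : nx x = nx y := by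
        rw [hxs]
        unfold nx
        rw [e1.2.1, e1.2.2.1]
      rw [e2]
      exact hy
    · intro F hF hFg x hx
      exact (hkk F hF hFg x hx).1
    · intro F hF hFg x hx
      exact (hkk F hF hFg x hx).2
    · intro ρ hρ hρr f hf hfs hfi
      exact (h7 N n D G hG B hNC l dc r hI hU ρ hρ hρr f hf hfs hfi).1
  · have hlam : ∀ M : ℝ, 1 ≤ M → M ≤ Λ → Λ⁻¹ ≤ M⁻¹ := fun M h1 h2 => inv_anti₀ (by linarith) h2
    have hM7Λ : M7 ≤ Λ := by rw [hΛ']; linarith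
    have hcast : ((D * n + n : ℕ) : ℝ) ≤ Λ := by
      have : ((D * n + n : ℕ) : ℝ) ≤ (D * n + n : ℕ) * P := le_mul_of_one_le_right hDn hP1
      rw [hΛ']
      linarith
    refine ⟨hΛ1, ?_, ?_, ?_, ?_, ?_, ?_, ?_, ?_, ?_, ?_, ?_⟩
    · rw [Fintype.card_prod, Fintype.card_fin, Fintype.card_fin]
      refine le_trans ?_ hcast
      exact_mod_cast Nat.le_add_right _ _
    · rw [Fintype.card_fin]
      have e1 : dc.M ≤ (D * n + n) * l ^ D := by
        have e2 := dc.card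
        have e3 : 1 ≤ l ^ D := Nat.one_le_pow _ _ (Nat.pos_of_ne_zero hl.out)
        have e4 : (D * n + n) * l ^ D = D * l ^ D * n + n * l ^ D := by ring
        have e5 : n ≤ n * l ^ D := Nat.le_mul_of_pos_right n e3
        omega
      have e6 : (dc.M : ℝ) ≤ ((D * n + n : ℕ) : ℝ) * (l : ℝ) ^ D := by exact_mod_cast e1
      have e7 : ((D * n + n : ℕ) : ℝ) * (l : ℝ) ^ D ≤ ((D * n + n : ℕ) : ℝ) * P :=
        mul_le_mul_of_nonneg_left kD hDn
      rw [hΛ']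
      linarith
    · intro i
      have e1 := (hom l dc i).1
      rw [← hM7] at e1
      exact (hlam _ g7 hM7Λ).trans e1
    · intro i
      have e1 := (hom l dc i).2
      rw [← hM7] at e1
      exact e1.trans hM7Λ
    · change Λ⁻¹ ≤ ((l : ℝ) ^ D)⁻¹
      refine hlam _ hl1 ?_
      rw [hΛ']
      linarith
    · change ((l : ℝ) ^ D)⁻¹ ≤ Λ
      exact (inv_le_one_of_one_le₀ hl1).trans hΛ1
    · intro C i j
      refine (hAb C i j).trans (mul_le_mul_of_nonneg_right (by linarith) ?_)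
      exact Real.sqrt_nonneg _
    · change max M1 (2 * M6) ≤ Λ
      exact max_le (by linarith) (by linarith)
    · change Λ⁻¹ ≤ r
      rw [hr]
      exact inv_anti₀ hSp hS
    · exact hr1
    · intro x hx
      change nx x < r ^ 2 at hx
      change gC J x + gA J x ≤ (Λ * J x) ^ 2
      have e1 := hJb x (lt_sq hx hr0 hrr3)
      rw [inv_inv] at e1
      refine e1.trans ?_
      have e2 := hJp x
      refine pow_le_pow_left₀ (by positivity) ?_ 2
      exact mul_le_mul_of_nonneg_right (by linarith) e2.le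

end

end Pool.Agent.Q38.LU
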