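import Pool.Agent.Q77.LU.StmU
import Pool.Agent.Q52.LU.CHI

/-!
# Project LU, uniform version, job CHIU: the formula of integration in the chart
-/

set_option autoImplicit false

namespace Pool.Agent.Q38.LU

open Pool.Agent.Q77.LU Pool.Agent.Q52.LU MeasureTheory Matrix Set Filter Topology
open scoped ContDiff Matrix.Norms.Frobenius

noncomputable section

/-- derivative of an average -/
theorem fderiv_avg {E K : Type} [NormedAddCommGroup E] [NormedSpace ℝ E]
    [FiniteDimensional ℝ E] [TopologicalSpace K]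
    [CompactSpace K] [SecondCountableTopology K] [MeasurableSpace K] [BorelSpace K]
    (μ : Measure K) [IsFiniteMeasure μ] (A : K → (E →L[ℝ] E)) (hA : Continuous A) (f : E → ℝ)
    (hf : ContDiff ℝ ∞ f) (x v : E) :
    Integrable (fun k => fderiv ℝ f (A k x) (A k v)) μ ∧
    fderiv ℝ (fun x => ∫ k, f (A k x) ∂μ) x v = ∫ k, fderiv ℝ f (A k x) (A k v) ∂μ := by
  have hproper : ProperSpace E := FiniteDimensional.proper_real E
  have hcf : Continuous f := hf.continuous
  have hdf : Continuous (fderiv ℝ f) := hf.continuous_fderiv (by simp)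
  set D : E → K → (E →L[ℝ] ℝ) := fun y k => (fderiv ℝ f (A k y)).comp (A k) with hD
  have hDc : Continuous (fun p : E × K => D p.1 p.2) := by
    have h1 : Continuous (fun p : E × K => A p.2) := hA.comp continuous_snd
    have h2 : Continuous (fun p : E × K => A p.2 p.1) := h1.clm_apply continuous_fst
    exact (hdf.comp h2).clm_comp h1
  have hDx : ∀ y, Continuous (D y) := fun y => hDc.comp (continuous_const.prodMk continuous_id)
  have hAx : ∀ y, Continuous fun k => A k y := fun y => hA.clm_apply continuous_const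
  have hbd : ∀ {W : Type} [NormedAddCommGroup W] (u : K → W), Continuous u → ∃ C : ℝ,
      ∀ k, ‖u k‖ ≤ C := by
    intro W _ u hu
    obtain ⟨C, hC⟩ := (isCompact_univ (X := K)).exists_bound_of_continuousOn hu.continuousOn
    exact ⟨C, fun k => hC k trivial⟩
  have hDi : Integrable (D x) μ := by
    obtain ⟨C, hC⟩ := hbd (D x) (hDx x)
    exact Integrable.of_bound (hDx x).aestronglyMeasurable C (Eventually.of_forall hC)
  have hder : HasFDerivAt (fun x => ∫ k, f (A k x) ∂μ) (∫ k, D x k ∂μ) x := by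
    obtain ⟨C, hC⟩ := ((isCompact_closedBall x 1).prod (isCompact_univ (X := K))
      ).exists_bound_of_continuousOn (f := fun p : E × K => D p.1 p.2) hDc.continuousOn
    refine hasFDerivAt_integral_of_dominated_of_fderiv_le (F' := D)
      (s := Metric.closedBall x 1) (bound := fun _ => C)
      (Metric.closedBall_mem_nhds x one_pos) ?_ ?_ ?_ ?_ ?_ ?_
    · exact Eventually.of_forall fun y => (hcf.comp (hAx y)).aestronglyMeasurable
    · obtain ⟨C', hC'⟩ := hbd _ (hcf.comp (hAx x))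
      exact Integrable.of_bound (hcf.comp (hAx x)).aestronglyMeasurable C'
        (Eventually.of_forall hC')
    · exact (hDx x).aestronglyMeasurable
    · exact Eventually.of_forall fun k y hy => hC (y, k) ⟨hy, trivial⟩
    · exact integrable_const C
    · refine Eventually.of_forall fun k y _ => ?_
      have h1 : HasFDerivAt f (fderiv ℝ f (A k y)) (A k y) :=
        (hf.differentiable (by simp) (A k y)).hasFDerivAt
      exact HasFDerivAt.comp (g := f) (f := fun e : E => A k e) y h1 (A k).hasFDerivAt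
  refine ⟨?_, ?_⟩
  · exact hDi.apply_continuousLinearMap v
  · rw [hder.fderiv, ContinuousLinearMap.integral_apply hDi]
    rfl

section grad

variable {P Q : Type} [Fintype P] [DecidableEq P] [Fintype Q] [DecidableEq Q]

theorem fderiv_coord (f : (P → ℝ) × (Q → ℝ) → ℝ) (x v : (P → ℝ) × (Q → ℝ)) :
    fderiv ℝ f x v = ∑ i, v.1 i * fderiv ℝ f x (Pi.single i 1, 0) +
      ∑ j, v.2 j * fderiv ℝ f x (0, Pi.single j 1) := by
  have h1 : v = ∑ i, v.1 i • ((Pi.single i (1 : ℝ) : P → ℝ), (0 : Q → ℝ)) +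
      ∑ j, v.2 j • ((0 : P → ℝ), (Pi.single j (1 : ℝ) : Q → ℝ)) := by
    refine Prod.ext ?_ ?_
    · rw [Prod.fst_add, Prod.fst_sum, Prod.fst_sum]
      funext k
      simp [Pi.single_apply, Finset.sum_apply]
    · rw [Prod.snd_add, Prod.snd_sum, Prod.snd_sum]
      funext k
      simp [Pi.single_apply, Finset.sum_apply]
  conv_lhs => rw [h1]
  rw [map_add, map_sum, map_sum]
  simp only [map_smul, smul_eq_mul]

theorem fderiv_sq_le (f : (P → ℝ) × (Q → ℝ) → ℝ) (x v : (P → ℝ) × (Q → ℝ)) :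
    (fderiv ℝ f x v) ^ 2 ≤ (gC f x + gA f x) * nx v := by
  rw [fderiv_coord]
  have h1 : (∑ i, v.1 i * fderiv ℝ f x (Pi.single i 1, 0)) ^ 2 ≤ n2 v.1 * gC f x :=
    Finset.sum_mul_sq_le_sq_mul_sq _ _ _
  have h2 : (∑ j, v.2 j * fderiv ℝ f x (0, Pi.single j 1)) ^ 2 ≤ n2 v.2 * gA f x :=
    Finset.sum_mul_sq_le_sq_mul_sq _ _ _
  have a1 : 0 ≤ n2 v.1 := Pool.Agent.Q52.LU.n2_nonneg _
  have a2 : 0 ≤ n2 v.2 := Pool.Agent.Q52.LU.n2_nonneg _
  have a3 : 0 ≤ gC f x := Finset.sum_nonneg fun _ _ => sq_nonneg _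
  have a4 : 0 ≤ gA f x := Finset.sum_nonneg fun _ _ => sq_nonneg _
  unfold nx
  generalize (∑ i, v.1 i * fderiv ℝ f x (Pi.single i 1, 0)) = s at *
  generalize (∑ j, v.2 j * fderiv ℝ f x (0, Pi.single j 1)) = t at *
  generalize n2 v.1 = a at *
  generalize n2 v.2 = b at *
  generalize gC f x = c at *
  generalize gA f x = e at *
  have h3 : (s * t) ^ 2 ≤ (a * c) * (b * e) := by
    rw [mul_pow]
    exact mul_le_mul h1 h2 (sq_nonneg _) (by positivity)
  have h4 : 2 * (s * t) ≤ a * e + b * c := by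
    have h5 : (2 * (s * t)) ^ 2 ≤ (a * e + b * c) ^ 2 := by nlinarith [sq_nonneg (a * e - b * c)]
    exact abs_le_of_sq_le_sq' h5 (by positivity) |>.2
  nlinarith

/-- gradient of an average -/
theorem grad_avg {K : Type} [TopologicalSpace K] [CompactSpace K] [SecondCountableTopology K]
    [MeasurableSpace K] [BorelSpace K] (μ : Measure K) [IsFiniteMeasure μ]
    (A : K → ((P → ℝ) × (Q → ℝ) →L[ℝ] (P → ℝ) × (Q → ℝ))) (hA : Continuous A)
    (hn : ∀ k x, nx (A k x) = nx x) (f : (P → ℝ) × (Q → ℝ) → ℝ) (hf : ContDiff ℝ ∞ f)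
    (hp : ∀ x, 0 < f x) {r s κ : ℝ} (hs : 0 ≤ s) (hκ : 0 ≤ κ)
    (hb : ∀ x, nx x < r ^ 2 → gC f x + gA f x ≤ (s * f x) ^ 2) (x : (P → ℝ) × (Q → ℝ))
    (hx : nx x < r ^ 2) :
    gC (fun x => κ * ∫ k, f (A k x) ∂μ) x + gA (fun x => κ * ∫ k, f (A k x) ∂μ) x ≤
      (s * (κ * ∫ k, f (A k x) ∂μ)) ^ 2 := by
  obtain ⟨J, hJ⟩ : ∃ J : (P → ℝ) × (Q → ℝ) → ℝ, J = fun x => κ * ∫ k, f (A k x) ∂μ := ⟨_, rfl⟩
  have hJx : κ * ∫ k, f (A k x) ∂μ = J x := by rw [hJ]
  rw [hJx, ← hJ]
  have hder : ∀ v, fderiv ℝ J x v = κ * ∫ k, fderiv ℝ f (A k x) (A k v) ∂μ := by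
    intro v
    obtain ⟨-, h1⟩ := fderiv_avg μ A hA f hf x v
    have hd : DifferentiableAt ℝ (fun x => ∫ k, f (A k x) ∂μ) x := by
      have h2 : ContDiff ℝ ∞ (fun x => ∫ k, f (A k x) ∂μ) :=
        contDiff_avg μ A hA
          (fun p : (((P → ℝ) × (Q → ℝ) →L[ℝ] (P → ℝ) × (Q → ℝ))) × ((P → ℝ) × (Q → ℝ)) =>
            f (p.1 p.2)) (hf.comp (contDiff_fst.clm_apply contDiff_snd))
      exact h2.differentiable (by simp) x
    rw [hJ, fderiv_const_mul hd, ← h1]
    rfl
  set v : (P → ℝ) × (Q → ℝ) := (fun i => fderiv ℝ J x (Pi.single i 1, 0),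
    fun j => fderiv ℝ J x (0, Pi.single j 1)) with hv
  have hT : nx v = gC J x + gA J x := rfl
  have hT2 : fderiv ℝ J x v = nx v := by
    rw [fderiv_coord J x v]
    unfold nx n2
    simp only [hv, sq]
  rw [← hT]
  set T := nx v with hTdef
  have hT0 : 0 ≤ T := Pool.Agent.Q52.LU.nx_nonneg _
  have hfc : Continuous f := hf.continuous
  have hfi : Integrable (fun k => f (A k x)) μ := by
    have hc : Continuous (fun k => f (A k x)) := hfc.comp (hA.clm_apply continuous_const)
    obtain ⟨C, hC⟩ := (isCompact_univ (X := K)).exists_bound_of_continuousOn hc.continuousOn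
    exact Integrable.of_bound hc.aestronglyMeasurable C
      (Eventually.of_forall fun k => hC k trivial)
  have hle : T ≤ s * Real.sqrt T * J x := by
    have h1 : ∫ k, fderiv ℝ f (A k x) (A k v) ∂μ ≤ ∫ k, s * Real.sqrt T * f (A k x) ∂μ := by
      refine integral_mono (fderiv_avg μ A hA f hf x v).1 (hfi.const_mul _) fun k => ?_
      have h2 := fderiv_sq_le f (A k x) (A k v)
      rw [hn] at h2
      have h3 := hb (A k x) (by rw [hn]; exact hx)
      have h4 : (fderiv ℝ f (A k x) (A k v)) ^ 2 ≤ (s * Real.sqrt T * f (A k x)) ^ 2 := by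
        calc (fderiv ℝ f (A k x) (A k v)) ^ 2 ≤ (s * f (A k x)) ^ 2 * T :=
              h2.trans (mul_le_mul_of_nonneg_right h3 hT0)
          _ = (s * Real.sqrt T * f (A k x)) ^ 2 := by
              rw [mul_pow, mul_pow, mul_pow, Real.sq_sqrt hT0]
              ring
      have h5 : 0 ≤ s * Real.sqrt T * f (A k x) :=
        mul_nonneg (mul_nonneg hs (Real.sqrt_nonneg _)) (hp _).le
      exact (abs_le_of_sq_le_sq' h4 h5).2
    rw [integral_const_mul] at h1
    calc T = κ * ∫ k, fderiv ℝ f (A k x) (A k v) ∂μ := by rw [← hder v, hT2]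
      _ ≤ κ * (s * Real.sqrt T * ∫ k, f (A k x) ∂μ) := mul_le_mul_of_nonneg_left h1 hκ
      _ = s * Real.sqrt T * (κ * ∫ k, f (A k x) ∂μ) := by ring
      _ = s * Real.sqrt T * J x := by rw [hJx]
  have hJ0 : 0 ≤ J x := by
    rw [← hJx]
    exact mul_nonneg hκ (integral_nonneg fun k => (hp _).le)
  rcases hT0.eq_or_lt with h0 | h0
  · rw [← h0]
    positivity
  · have h1 : 0 < Real.sqrt T := Real.sqrt_pos.2 h0
    have h2 : Real.sqrt T ≤ s * J x := by
      have h3 : Real.sqrt T * Real.sqrt T ≤ Real.sqrt T * (s * J x) := by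
        rw [Real.mul_self_sqrt hT0]
        linarith
      exact le_of_mul_le_mul_left h3 h1
    calc T = Real.sqrt T ^ 2 := (Real.sq_sqrt hT0).symm
      _ ≤ (s * J x) ^ 2 := pow_le_pow_left₀ h1.le h2 2

end grad

theorem chi_core (h1 : S_THD) (h3 : S_TREE) (h4 : S_TGA)
    (h6 : S_SYMM) (h8 : S_FINC) {N n D : ℕ} {G : Subgroup (UU N)} (hG : IsClosed (G : Set (UU N)))
    {B : LieBasis G n} [MeasurableSpace G] [BorelSpace G] (μ : Measure G)
    [IsProbabilityMeasure μ] [μ.IsHaarMeasure] (hNC : NoCentre B) {l : ℕ} [NeZero l]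
    (dc : Dec B D l) {rH rU r : ℝ} (hH : HmR μ dc rH) (hU : UniR dc rU) (hr : 0 < r)
    (hrH' : r ≤ rH) (hrU' : r ≤ rU) : ChiR μ dc r := by
  classical
  have hcU : CompactSpace (UU N) := cs_UU N
  have hsM : SecondCountableTopology (Mt N) := sc_Mt N
  have hcG : CompactSpace G := isCompact_iff_compactSpace.1 hG.isCompact
  have h00 : SecondCountableTopology (UU N) := TopologicalSpace.Subtype.secondCountableTopology _
  have h01 : SecondCountableTopology G := TopologicalSpace.Subtype.secondCountableTopology _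
  have hri : μ.IsMulRightInvariant := Pool.Agent.Q52.LU.right_inv μ
  obtain ⟨hth0, hthc, hthd, hthx⟩ := h1 N n D l G hG B dc
  obtain ⟨J0, hJ0, hJ0p, hJ0b, hint⟩ := hH.ex
  have hrH := hH.pos
  have hHaar : (volume : Measure ((Fin D × Fin n → ℝ) × (Fin dc.M → ℝ))).IsAddHaarMeasure :=
    haar_vol _ _
  have hrU := hU.pos
  have huniq := hU.uniq
  have hfin : Finite (Subgroup.center G) := h8 N n G hG B hNC
  have : Fintype (Fin D → Subgroup.center G) := Fintype.ofFinite _
  -- properties of the adjoint action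
  have hnx : ∀ (k : G) x, nx (dc.sg k x) = nx x := fun k x => by
    obtain ⟨-, e1, e2, -⟩ := h6 N n D l G hG B dc k x
    unfold nx
    rw [e1, e2]
  have hmul : ∀ (k k' : G) x, dc.sg k (dc.sg k' x) = dc.sg (k * k') x := fun k k' x =>
    (h6 N n D l G hG B dc k x).2.2.2.2.2.2.1 k'
  have hch : ∀ (k : G) x, dc.ch (dc.sg k x) = gauge (fun _ => k) (dc.ch x) := fun k x =>
    (h6 N n D l G hG B dc k x).1
  have hchc : Continuous fun x => dc.ch x := by
    have e1 := (h6 N n D l G hG B dc 1 0).2.2.2.2.2.2.2.2.continuous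
    exact continuous_pi fun e => cont_of_mt ((continuous_apply e).comp e1)
  have hthcont : Continuous dc.th :=
    continuous_pi fun e => cont_of_mt ((continuous_apply e).comp hthc.continuous)
  have hsgc : Continuous fun p : G × ((Fin D × Fin n → ℝ) × (Fin dc.M → ℝ)) =>
      dc.sg p.1 p.2 :=
    ((cont_sgA dc).comp continuous_fst).clm_apply continuous_snd
  have hκ : (0 : ℝ) < (Fintype.card (Fin D → Subgroup.center G) : ℝ) := by
    have : 0 < Fintype.card (Fin D → Subgroup.center G) := Fintype.card_pos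
    exact_mod_cast this
  set κ : ℝ := (Fintype.card (Fin D → Subgroup.center G) : ℝ) with hκdef
  -- the averaged density
  have hJc : ∀ x, Continuous fun k : G => J0 (dc.sg k x) := fun x =>
    hJ0.continuous.comp (cont_sg dc x)
  have hJi : ∀ x, Integrable (fun k : G => J0 (dc.sg k x)) μ := fun x => by
    obtain ⟨C, hC⟩ := (isCompact_univ (X := G)).exists_bound_of_continuousOn (hJc x).continuousOn
    exact Integrable.of_bound (hJc x).aestronglyMeasurable C
      (Eventually.of_forall fun k => hC k trivial)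
  refine ⟨hr, fun x => κ * ∫ k, J0 (dc.sg k x) ∂μ, ?_, ?_, ?_, ?_, ?_⟩
  · refine contDiff_const.mul ?_
    exact contDiff_avg μ (sgA dc) (cont_sgA dc)
      (fun p : (((Fin D × Fin n → ℝ) × (Fin dc.M → ℝ)) →L[ℝ]
        ((Fin D × Fin n → ℝ) × (Fin dc.M → ℝ))) × ((Fin D × Fin n → ℝ) × (Fin dc.M → ℝ)) =>
        J0 (p.1 p.2))
      (hJ0.comp (contDiff_fst.clm_apply contDiff_snd))
  · intro x
    refine mul_pos hκ ?_
    rw [integral_pos_iff_support_of_nonneg (fun k => (hJ0p _).le) (hJi x)]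
    have e1 : Function.support (fun k : G => J0 (dc.sg k x)) = univ :=
      eq_univ_of_forall fun k => (hJ0p _).ne'
    rw [e1, measure_univ]
    exact zero_lt_one
  · intro h x
    change κ * ∫ k, J0 (dc.sg k (dc.sg h x)) ∂μ = κ * ∫ k, J0 (dc.sg k x) ∂μ
    congr 1
    simp only [hmul]
    exact integral_mul_right_eq_self (μ := μ) (fun k => J0 (dc.sg k x)) h
  · intro x hx
    have hx' : nx x < rH ^ 2 := hx.trans_le (pow_le_pow_left₀ hr.le hrH' 2)
    have e1 := grad_avg μ (sgA dc) (cont_sgA dc) hnx J0 hJ0 hJ0p (inv_nonneg.2 hrH.le) hκ.le hJ0b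
      x hx'
    refine le_trans e1 (pow_le_pow_left₀ ?_ ?_ 2)
    · exact mul_nonneg (inv_nonneg.2 hrH.le) (mul_nonneg hκ.le
        (integral_nonneg fun k => (hJ0p _).le))
    · exact mul_le_mul_of_nonneg_right (inv_anti₀ hr hrH') (mul_nonneg hκ.le
        (integral_nonneg fun k => (hJ0p _).le))
  · intro ρ hρ hρr Φ hΦc hΦg hΦz hΦs
    have hρH : ρ ≤ rH := hρr.trans hrH'
    have hρU : ρ ≤ rU := hρr.trans hrU'
    have hρ2 : ρ ^ 2 ≤ rU ^ 2 := pow_le_pow_left₀ hρ.le hρU 2
    set Sρ : Set ((Fin D × Fin n → ℝ) × (Fin dc.M → ℝ)) := {x | nx x < ρ ^ 2} with hSρ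
    set Th : Set (NT D l → G) := dc.th '' Sρ with hTh
    set ν : Measure (NT D l → G) := Measure.pi fun _ : NT D l => μ with hν
    have hΦec : Continuous fun V : NT D l → G => Φ (ext V) := hΦc.comp cont_ext
    -- values of the function on the pieces
    have hΦcz : ∀ (z : Fin D → Subgroup.center G) (V : NT D l → G),
        Φ (ext (cz z * V)) = Φ (ext V) := fun z V => by
      rw [ext_cz]
      exact hΦz _ (fun i => (z i).2) _
    have hΦth : ∀ x, Φ (ext (dc.th x)) = Φ (dc.ch x) := fun x => by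
      rw [hthx x]
      exact hΦg _ _
    -- the pieces cover the support
    have hcover : ∀ V : NT D l → G, Φ (ext V) ≠ 0 →
        ∃ z : Fin D → Subgroup.center G, V ∈ (fun W => cz z * W) '' Th := by
      intro V hV
      obtain ⟨γ, z, x, hz, hx, hU⟩ := hΦs _ hV
      refine ⟨fun i => ⟨z i, hz i⟩, dc.th (dc.sg (γ 0) x), ⟨dc.sg (γ 0) x, ?_, rfl⟩, ?_⟩
      · change nx (dc.sg (γ 0) x) < ρ ^ 2
        rw [hnx]
        exact hx
      · refine ext_inj ?_
        change ext (cz (fun i => (⟨z i, hz i⟩ : Subgroup.center G)) * dc.th (dc.sg (γ 0) x)) =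
          ext V
        rw [ext_cz, hthx, hch]
        have e1 : tg (ext V) = ext V := (h4 N D l G (ext V)).2.2.2 (ext_tree V)
        rw [← e1, hU, (h4 N D l G _).2.1 γ, (h4 N D l G _).2.2.1 z hz,
          (h4 N D l G _).2.1 (fun _ => γ 0)]
        exact centre_gauge z hz _ _
    -- the pieces are disjoint
    have hdisj : Pairwise (Function.onFun Disjoint
        fun z : Fin D → Subgroup.center G => (fun W : NT D l → G => cz z * W) '' Th) := by
      intro z z' hzz
      rw [Function.onFun, Set.disjoint_left]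
      rintro V ⟨W, ⟨x, hx, rfl⟩, rfl⟩ ⟨W', ⟨y, hy, rfl⟩, hWW⟩
      apply hzz
      have hx' : nx x < rU ^ 2 := lt_of_lt_of_le hx hρ2
      have hy' : nx y < rU ^ 2 := lt_of_lt_of_le hy hρ2
      have e1 : ext (cz z * dc.th x) = ext (cz z' * dc.th y) := by
        have : cz z' * dc.th y = cz z * dc.th x := hWW
        rw [this]
      rw [ext_cz, ext_cz, hthx, hthx] at e1
      have hzc : ∀ i, ((z i : Subgroup.center G) : G) ∈ Subgroup.center G := fun i => (z i).2
      have hzc' : ∀ i, ((z' i : Subgroup.center G) : G) ∈ Subgroup.center G := fun i => (z' i).2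
      change centre _ (gauge (pth (dc.ch x)) (dc.ch x)) =
        centre _ (gauge (pth (dc.ch y)) (dc.ch y)) at e1
      rw [centre_gauge _ hzc, centre_gauge _ hzc'] at e1
      have e2 := congrArg (fun U => centre (fun i => (((z i : Subgroup.center G) : G))⁻¹)
        (gauge (fun p => (pth (dc.ch x) p)⁻¹) U)) e1
      simp only [gauge_gauge, inv_mul_cancel, gauge_one, centre_centre, centre_one] at e2
      have hzi : ∀ i, (((z i : Subgroup.center G) : G))⁻¹ ∈ Subgroup.center G :=
        fun i => inv_mem (hzc i)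
      rw [centre_gauge _ hzi, centre_centre] at e2
      obtain ⟨e3, -⟩ := huniq _ _ x y (fun i => mul_mem (hzi i) (hzc' i)) hx' hy' e2
      funext i
      have e4 := e3 i
      rw [inv_mul_eq_one] at e4
      exact Subtype.ext e4
    -- measurability of the pieces
    have hThm : MeasurableSet Th := by
      have e1 : Sρ = ⋃ k : ℕ, {x | nx x ≤ ρ ^ 2 * (1 - 1 / ((k : ℝ) + 1))} := by
        refine Set.ext fun x => ?_
        rw [Set.mem_iUnion]
        constructor
        · intro hx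
          have hx' : nx x < ρ ^ 2 := hx
          have hρ0 : 0 < ρ ^ 2 := by positivity
          obtain ⟨k, hk⟩ := exists_nat_one_div_lt
            (show 0 < (ρ ^ 2 - nx x) / ρ ^ 2 from div_pos (by linarith) hρ0)
          refine ⟨k, ?_⟩
          change nx x ≤ ρ ^ 2 * (1 - 1 / ((k : ℝ) + 1))
          rw [lt_div_iff₀ hρ0] at hk
          nlinarith
        · rintro ⟨k, hk⟩
          have hk' : nx x ≤ ρ ^ 2 * (1 - 1 / ((k : ℝ) + 1)) := hk
          have hρ0 : 0 < ρ ^ 2 := by positivity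
          have e2 : 0 < 1 / ((k : ℝ) + 1) := by positivity
          change nx x < ρ ^ 2
          nlinarith
      rw [hTh, e1, Set.image_iUnion]
      refine MeasurableSet.iUnion fun k => ?_
      refine IsClosed.measurableSet (IsCompact.isClosed (IsCompact.image ?_ hthcont))
      refine (compact_nx (P := Fin D × Fin n) (Q := Fin dc.M) ρ hρ.le).of_isClosed_subset
        (isClosed_le cont_nx continuous_const) fun x hx => ?_
      have hk' : nx x ≤ ρ ^ 2 * (1 - 1 / ((k : ℝ) + 1)) := hx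
      have e2 : 0 < 1 / ((k : ℝ) + 1) := by positivity
      have hρ0 : 0 < ρ ^ 2 := by positivity
      change nx x ≤ ρ ^ 2
      nlinarith
    have hemb : ∀ z : Fin D → Subgroup.center G,
        MeasurableEmbedding fun W : NT D l → G => cz z * W := fun z =>
      measurableEmbedding_mulLeft _
    have hΦi : Integrable (fun V : NT D l → G => Φ (ext V)) ν := by
      obtain ⟨C, hC⟩ := (isCompact_univ (X := NT D l → G)).exists_bound_of_continuousOn
        hΦec.continuousOn
      exact Integrable.of_bound hΦec.aestronglyMeasurable C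
        (Eventually.of_forall fun k => hC k trivial)
    -- the integral over the group
    have hA : ∫ U, Φ U ∂(Measure.pi fun _ : Link D l => μ) =
        κ * ∫ x in Sρ, Φ (dc.ch x) * J0 x := by
      rw [h3 N D l G hG μ Φ hΦc hΦg]
      have e1 : ∫ V, Φ (ext V) ∂ν =
          ∫ V in ⋃ z : Fin D → Subgroup.center G, (fun W => cz z * W) '' Th, Φ (ext V) ∂ν := by
        symm
        refine setIntegral_eq_integral_of_forall_compl_eq_zero fun V hV => ?_
        by_contra h
        exact hV (Set.mem_iUnion.2 (hcover V h))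
      change ∫ V, Φ (ext V) ∂ν = _
      rw [e1, integral_iUnion_fintype (fun z => (hemb z).measurableSet_image.2 hThm) hdisj
        fun z => hΦi.integrableOn]
      have e2 : ∀ z : Fin D → Subgroup.center G,
          ∫ V in (fun W => cz z * W) '' Th, Φ (ext V) ∂ν = ∫ x in Sρ, Φ (dc.ch x) * J0 x := by
        intro z
        rw [(measurePreserving_mul_left ν (cz z)).setIntegral_image_emb (hemb z)
          (fun V => Φ (ext V)) Th]
        simp only [hΦcz]
        rw [hTh, hSρ, hint ρ hρ hρH (fun V => Φ (ext V)) hΦec]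
        simp only [hΦth]
      simp only [e2, Finset.sum_const, Finset.card_univ, nsmul_eq_mul]
      rfl
    rw [hA]
    -- average over the adjoint action
    have hB : ∀ k : G, ∫ x in Sρ, Φ (dc.ch x) * J0 (dc.sg k x) =
        ∫ x in Sρ, Φ (dc.ch x) * J0 x := by
      intro k
      obtain ⟨e1, e2⟩ := mp_sg dc hG h6 k
      have e4 := e1.setIntegral_preimage_emb e2 (fun x => Φ (dc.ch x) * J0 x) Sρ
      have e3 : dc.sg k ⁻¹' Sρ = Sρ := by
        refine Set.ext fun x => ?_
        change nx (dc.sg k x) < ρ ^ 2 ↔ nx x < ρ ^ 2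
        rw [hnx]
      rw [e3] at e4
      rw [← e4]
      refine setIntegral_congr_fun (open_nx ρ).measurableSet fun x _ => ?_
      change Φ (dc.ch x) * J0 (dc.sg k x) = Φ (dc.ch (dc.sg k x)) * J0 (dc.sg k x)
      rw [hch, hΦg]
    have hC := avg_int volume μ Sρ _ (open_nx ρ).measurableSet
      (compact_nx (P := Fin D × Fin n) (Q := Fin dc.M) ρ hρ.le)
      (fun x hx => show nx x ≤ ρ ^ 2 from le_of_lt hx) (fun x => Φ (dc.ch x)) J0 dc.sg
      (hΦc.comp hchc) hJ0.continuous hsgc hB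
    rw [← hC, ← integral_const_mul]
    refine integral_congr_ae (Eventually.of_forall fun x => ?_)
    simp only
    ring

/-- **CHIU** -/
theorem t_CHIU (h1 : S_HMU) (h2 : S_UNIQU) (h3 : S_THD) (h4 : S_TREE) (h5 : S_TGA)
    (_h6 : S_CARD) (h7 : S_SYMM) (h8 : S_FINC) : S_CHIU := by
  intro N n D G hG B _ _ μ _ _ hNC
  obtain ⟨p1, C1, hC1, hH⟩ := h1 N n D G hG B μ
  obtain ⟨p2, C2, hC2, hU⟩ := h2 N n D G hG B hNC
  refine ⟨p1 + p2, C1 + C2, by linarith, ?_⟩
  intro l _ dc
  have hl : (1 : ℝ) ≤ l := by exact_mod_cast NeZero.one_le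
  have g1 : (l : ℝ) ^ p1 ≤ (l : ℝ) ^ (p1 + p2) := pow_le_pow_right₀ hl (Nat.le_add_right _ _)
  have g2 : (l : ℝ) ^ p2 ≤ (l : ℝ) ^ (p1 + p2) := pow_le_pow_right₀ hl (Nat.le_add_left _ _)
  have g3 : (0 : ℝ) < (l : ℝ) ^ p1 := by positivity
  have g4 : (0 : ℝ) < (l : ℝ) ^ p2 := by positivity
  have k1 : C1 * (l : ℝ) ^ p1 ≤ (C1 + C2) * (l : ℝ) ^ (p1 + p2) := by
    calc C1 * (l : ℝ) ^ p1 ≤ C1 * (l : ℝ) ^ (p1 + p2) :=
          mul_le_mul_of_nonneg_left g1 (by linarith)
      _ ≤ (C1 + C2) * (l : ℝ) ^ (p1 + p2) :=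
          mul_le_mul_of_nonneg_right (by linarith) (by positivity)
  have k2 : C2 * (l : ℝ) ^ p2 ≤ (C1 + C2) * (l : ℝ) ^ (p1 + p2) := by
    calc C2 * (l : ℝ) ^ p2 ≤ C2 * (l : ℝ) ^ (p1 + p2) :=
          mul_le_mul_of_nonneg_left g2 (by linarith)
      _ ≤ (C1 + C2) * (l : ℝ) ^ (p1 + p2) :=
          mul_le_mul_of_nonneg_right (by linarith) (by positivity)
  have k3 : 0 < C1 * (l : ℝ) ^ p1 := mul_pos (by linarith) g3
  have k4 : 0 < C2 * (l : ℝ) ^ p2 := mul_pos (by linarith) g4
  exact chi_core h3 h4 h5 h7 h8 hG μ hNC dc (hH l dc) (hU l dc)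
    (inv_pos.2 (k3.trans_le k1)) (inv_anti₀ k3 k1) (inv_anti₀ k4 k2)

end

end Pool.Agent.Q38.LU
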