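import Pool.Agent.Q77.LU.StmU
import Pool.Agent.Q176.LU.LOC
import Pool.Agent.Q177.LU.SQT

/-!
# Project LU, uniform version, job LOCU: continuous localisation
-/

set_option autoImplicit false

namespace Pool.Agent.Q38.LU

open Pool.Agent.Q77.LU Pool.Agent.Q176.LU Pool.Agent.H906R3
open MeasureTheory Matrix Set Filter Topology
open scoped ContDiff Matrix.Norms.Frobenius

noncomputable section

variable {N n D l : ℕ} {G : Subgroup (UU N)}

/-- the function of one link variable -/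
def beta (b : (Link 1 1 → G) → ℝ) (w : G) : ℝ := b fun _ => w

theorem b_eq_beta (b : (Link 1 1 → G) → ℝ) (W : Link 1 1 → G) (e : Link 1 1) :
    b W = beta b (W e) := by
  unfold beta
  congr 1
  funext e'
  rw [Subsingleton.elim e' e]

/-- the derivative of the function of one link variable -/
def dbeta (B : LieBasis G n) (a : Fin n) (b : (Link 1 1 → G) → ℝ) (w : G) : ℝ :=
  deriv (fun t => beta b (B.ex a t * w)) 0

theorem dlink_b (B : LieBasis G n) (e : Link 1 1) (a : Fin n) (b : (Link 1 1 → G) → ℝ)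
    (W : Link 1 1 → G) : dlink B e a b W = dbeta B a b (W e) := by
  unfold dlink dbeta
  congr 1
  funext t
  rw [b_eq_beta b _ e, Function.update_self]

theorem int_one [MeasurableSpace G] (μ : Measure G) [IsProbabilityMeasure μ] (f : G → ℝ)
    (e : Link 1 1) : ∫ W, f (W e) ∂(Measure.pi fun _ : Link 1 1 => μ) = ∫ w, f w ∂μ := by
  have h1 := integral_fintype_prod_eq_prod (ι := Link 1 1) (E := fun _ => G) (𝕜 := ℝ)
    (μ := fun _ => μ) (fun _ => f)
  have h2 : ∀ u : Link 1 1 → ℝ, ∏ i, u i = u e := fun u => by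
    rw [Fintype.prod_subsingleton _ e]
  simp only [h2] at h1
  exact h1

variable [NeZero l]

/-- the product of the functions of all links -/
def bprod (D l : ℕ) [NeZero l] (b : (Link 1 1 → G) → ℝ) (W : Link D l → G) : ℝ :=
  ∏ e, beta b (W e)

theorem bprod_sm {b : (Link 1 1 → G) → ℝ} (hb : IsSmooth b) : IsSmooth (bprod D l b) := by
  obtain ⟨f, hf, h⟩ := hb
  refine ⟨fun M => ∏ e, f (fun _ => M e), ?_, fun U => ?_⟩
  · exact contDiff_prod fun e _ => hf.comp (contDiff_pi.2 fun _ => contDiff_apply ℝ (Mt N) e)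
  · unfold bprod beta
    exact Finset.prod_congr rfl fun e _ => h _

theorem dlink_bprod (B : LieBasis G n) (e : Link D l) (a : Fin n) (b : (Link 1 1 → G) → ℝ)
    (W : Link D l → G) : dlink B e a (bprod D l b) W =
      ∏ e', (if e' = e then dbeta B a b (W e') else beta b (W e')) := by
  have h1 : (fun t => bprod D l b (Function.update W e (B.ex a t * W e))) =
      fun t => beta b (B.ex a t * W e) * ∏ e' ∈ Finset.univ.erase e, beta b (W e') := by
    funext t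
    unfold bprod
    rw [← Finset.mul_prod_erase _ _ (Finset.mem_univ e), Function.update_self]
    congr 1
    refine Finset.prod_congr rfl fun e' he' => ?_
    rw [Function.update_of_ne (Finset.ne_of_mem_erase he')]
  unfold dlink
  rw [h1, deriv_mul_const_field, ← Finset.mul_prod_erase _ _ (Finset.mem_univ e), if_pos rfl]
  congr 1
  refine Finset.prod_congr rfl fun e' he' => ?_
  rw [if_neg (Finset.ne_of_mem_erase he')]

/-- the function of the localisation, with a constant independent of the lattice -/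
theorem exists_bU (hG : IsClosed (G : Set (UU N))) (B : LieBasis G n) [MeasurableSpace G]
    [BorelSpace G] (μ : Measure G) [IsProbabilityMeasure μ] [μ.IsHaarMeasure] :
    ∃ K : ℝ, 0 ≤ K ∧ ∀ (D l : ℕ) [NeZero l] (ρ : ℝ), 0 < ρ → ∃ b : (Link D l → G) → ℝ,
      IsSmooth b ∧ (∀ W, b W ≠ 0 → ∀ e, ‖mt (W e) - 1‖ ≤ ρ) ∧
      ∫ W, b W ^ 2 ∂(Measure.pi fun _ : Link D l => μ) = 1 ∧
      ∀ e a, ∫ W, dlink B e a b W ^ 2 ∂(Measure.pi fun _ : Link D l => μ) ≤ K / ρ ^ 2 := by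
  obtain ⟨K, hK, h⟩ := exists_b (l := 1) (D := 1) hG B μ
  refine ⟨K, hK, fun D l _ ρ hρ => ?_⟩
  obtain ⟨b, hb, hs, h1, hd⟩ := h ρ hρ
  let e0 : Link 1 1 := (0, 0)
  have g1 : ∫ w, beta b w ^ 2 ∂μ = 1 := by
    rw [← int_one μ (fun w => beta b w ^ 2) e0, ← h1]
    refine integral_congr_ae (Eventually.of_forall fun W => ?_)
    show beta b (W e0) ^ 2 = b W ^ 2
    rw [b_eq_beta b W e0]
  have g2 : ∀ a, ∫ w, dbeta B a b w ^ 2 ∂μ ≤ K / ρ ^ 2 := by
    intro a
    refine le_trans (le_of_eq ?_) (hd e0 a)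
    rw [← int_one μ (fun w => dbeta B a b w ^ 2) e0]
    refine integral_congr_ae (Eventually.of_forall fun W => ?_)
    show dbeta B a b (W e0) ^ 2 = dlink B e0 a b W ^ 2
    rw [dlink_b]
  refine ⟨bprod D l b, bprod_sm hb, fun W hW e => ?_, ?_, fun e a => ?_⟩
  · have h3 : beta b (W e) ≠ 0 := fun h4 => hW (Finset.prod_eq_zero (Finset.mem_univ e) h4)
    exact hs (fun _ => W e) h3 e0
  · have h3 := integral_fintype_prod_eq_prod (ι := Link D l) (E := fun _ => G) (𝕜 := ℝ)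
      (μ := fun _ => μ) (fun _ w => beta b w ^ 2)
    have h4 : ∀ W : Link D l → G, bprod D l b W ^ 2 = ∏ e, beta b (W e) ^ 2 := fun W => by
      unfold bprod
      rw [Finset.prod_pow]
    simp only [h4]
    rw [h3]
    exact Finset.prod_eq_one fun e _ => g1
  · have h3 := integral_fintype_prod_eq_prod (ι := Link D l) (E := fun _ => G) (𝕜 := ℝ)
      (μ := fun _ => μ) (fun e' w => (if e' = e then dbeta B a b w else beta b w) ^ 2)
    have h4 : ∀ W : Link D l → G, dlink B e a (bprod D l b) W ^ 2 =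
        ∏ e', (if e' = e then dbeta B a b (W e') else beta b (W e')) ^ 2 := fun W => by
      rw [dlink_bprod, Finset.prod_pow]
    simp only [h4]
    rw [h3, ← Finset.mul_prod_erase _ _ (Finset.mem_univ e)]
    simp only [if_true]
    rw [Finset.prod_eq_one (s := Finset.univ.erase e), mul_one]
    · exact g2 a
    · intro e' he'
      simp only [if_neg (Finset.ne_of_mem_erase he')]
      exact g1

theorem rpow_le_fifth {g p : ℝ} (hg : 0 < g) (hg1 : g ≤ 1) (hp : 1 / 5 ≤ p) :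
    g ^ p ≤ g ^ (1 / 5 : ℝ) := Real.rpow_le_rpow_of_exponent_ge hg hg1 hp

/-- **LOCU** -/
theorem t_LOCU (h1 : S_LOCVU) (h2 : S_TSH) (h3 : S_HESL) (h5 : S_HC) : S_LOCU := by
  intro N n D G hG B _ _ μ _ _
  obtain ⟨pV, CV, hCV, hlocl⟩ := h1 N n D G hG B μ
  obtain ⟨pH, CH, hCH, hhes⟩ := h3 N n D G hG B
  obtain ⟨K', hK', hbl⟩ := exists_bU hG B μ
  obtain ⟨s, hs⟩ : ∃ s : ℝ, s = ((D * n : ℕ) : ℝ) := ⟨_, rfl⟩
  have hs0 : 0 ≤ s := by rw [hs]; exact Nat.cast_nonneg _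
  refine ⟨pV + pH + 2 * D, CV + s * (1 + s * CH) + s * K' + 1, by
    have : 0 ≤ s * (1 + s * CH) := by positivity
    have : 0 ≤ s * K' := by positivity
    linarith, ?_⟩
  intro l _ M hM
  have hl : (1 : ℝ) ≤ l := by exact_mod_cast NeZero.one_le
  obtain ⟨P, hP⟩ : ∃ P : ℝ, P = (l : ℝ) ^ (pV + pH + 2 * D) := ⟨_, rfl⟩
  have hPk : ∀ k ≤ pV + pH + 2 * D, (l : ℝ) ^ k ≤ P := fun k hk => by
    rw [hP]
    exact pow_le_pow_right₀ hl hk
  have hP1 : 1 ≤ P := by
    rw [hP]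
    exact one_le_pow₀ hl
  obtain ⟨K, hKdef⟩ : ∃ K : ℝ, K = CV * (l : ℝ) ^ pV := ⟨_, rfl⟩
  obtain ⟨M2, hM2⟩ : ∃ M2 : ℝ, M2 = CH * (l : ℝ) ^ pH := ⟨_, rfl⟩
  obtain ⟨m, hm⟩ : ∃ m : ℝ, m = (Fintype.card (Link D l) : ℝ) * n := ⟨_, rfl⟩
  have hms : m = s * (l : ℝ) ^ D := by
    rw [hm, hs]
    have : Fintype.card (Link D l) = l ^ D * D := by
      rw [Fintype.card_prod, Fintype.card_fun, Fintype.card_fin, ZMod.card]
    rw [this]
    push_cast
    ring
  have hm0 : 0 ≤ m := by rw [hm]; positivity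
  have hM20 : 0 ≤ M2 := by rw [hM2]; positivity
  have hK0 : 0 ≤ K := by rw [hKdef]; positivity
  have k1 : K ≤ CV * P := by
    rw [hKdef]
    exact mul_le_mul_of_nonneg_left (hPk _ (by omega)) (by linarith)
  have k2 : m * (1 + m * M2) ≤ s * (1 + s * CH) * P := by
    have e1 : m * (1 + m * M2) = s * (l : ℝ) ^ D + s * s * CH * (l : ℝ) ^ (2 * D + pH) := by
      rw [hms, hM2, pow_add, pow_mul']
      ring
    have e2 := mul_le_mul_of_nonneg_left (hPk D (by omega)) hs0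
    have e3 := mul_le_mul_of_nonneg_left (hPk (2 * D + pH) (by omega))
      (by positivity : 0 ≤ s * s * CH)
    rw [e1]
    nlinarith
  have k3 : m * K' ≤ s * K' * P := by
    have e2 := mul_le_mul_of_nonneg_left (hPk D (by omega)) (by positivity : 0 ≤ s * K')
    rw [hms]
    linarith
  have hM' : M = CV * P + s * (1 + s * CH) * P + s * K' * P + P := by
    rw [hM, ← hP]
    ring
  have hMk : K + m * (1 + m * M2) + m * K' ≤ M := by rw [hM']; linarith
  have hM1 : 1 ≤ M := by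
    have e1 : 0 ≤ m * (1 + m * M2) := by positivity
    have e2 : 0 ≤ m * K' := by positivity
    rw [hM']
    linarith
  have hKM : K ≤ M := by
    have e1 : 0 ≤ m * (1 + m * M2) := by positivity
    have e2 : 0 ≤ m * K' := by positivity
    linarith
  have hK1 : 0 < K := by rw [hKdef]; positivity
  have hloc := hlocl l K hKdef
  obtain ⟨hc1, hc2, hc3, -⟩ := h5 N n D l G hG B
  have hb := hbl D l
  obtain ⟨h, hh⟩ : ∃ h : (Link D l → G) → ℝ, h = fun U => 1 / 2 * tsq (hess B U) := ⟨_, rfl⟩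
  have hhc : Continuous h := by
    rw [hh]
    refine continuous_const.mul ?_
    exact (Pool.Agent.Q177.LU.t_TSC (Link D l × Fin n)).comp_continuous hc1 hc2
  intro g hg hgM F hF
  have hgg1 : g ≤ K⁻¹ := hgM.trans (inv_anti₀ hK1 hKM)
  have hg1' : g ≤ 1 := hgM.trans (inv_le_one_of_one_le₀ hM1)
  have hgr0 : 0 < g ^ (1 / 5 : ℝ) := Real.rpow_pos_of_pos hg _
  obtain ⟨w0, hw0⟩ : ∃ w0 : ℝ, w0 = m * (1 + m * M2) * g ^ (1 / 5 : ℝ) := ⟨_, rfl⟩
  have hu : ∀ U V : Link D l → G, (∀ e, ‖mt (U e) - mt (V e)‖ ≤ g ^ (3 / 5 : ℝ)) →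
      |h U - h V| ≤ w0 := by
    intro U V hUV
    have hcard : (Fintype.card (Link D l × Fin n) : ℝ) = m := by
      rw [hm, Fintype.card_prod, Fintype.card_fin]
      push_cast
      rfl
    have hη : 0 ≤ M2 * g ^ (3 / 5 : ℝ) := mul_nonneg hM20 (Real.rpow_nonneg hg.le _)
    have hUV' : ∀ e, ‖mt (V e) - mt (U e)‖ ≤ g ^ (3 / 5 : ℝ) := fun e => by
      rw [norm_sub_rev]
      exact hUV e
    have e1 := h2 (Link D l × Fin n) (hess B U) (hess B V) (M2 * g ^ (3 / 5 : ℝ)) (hc2 U) (hc2 V)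
      hη fun i j => by
        have := hhes l U V _ hUV i j
        rwa [← hM2] at this
    have e2 := h2 (Link D l × Fin n) (hess B V) (hess B U) (M2 * g ^ (3 / 5 : ℝ)) (hc2 V) (hc2 U)
      hη fun i j => by
        have := hhes l V U _ hUV' i j
        rwa [← hM2] at this
    rw [hcard] at e1 e2
    have e3 : Real.sqrt (m * (M2 * g ^ (3 / 5 : ℝ))) ≤ (1 + m * M2) * g ^ (1 / 5 : ℝ) := by
      have f1 : m * (M2 * g ^ (3 / 5 : ℝ)) ≤ ((1 + m * M2) * g ^ (1 / 5 : ℝ)) ^ 2 := by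
        have f2 : g ^ (3 / 5 : ℝ) ≤ (g ^ (1 / 5 : ℝ)) ^ 2 := by
          rw [← Real.rpow_natCast (g ^ (1 / 5 : ℝ)) 2, ← Real.rpow_mul hg.le]
          exact Real.rpow_le_rpow_of_exponent_ge hg hg1' (by norm_num)
        have f3 : m * M2 ≤ (1 + m * M2) ^ 2 := by
          have : 0 ≤ m * M2 := mul_nonneg hm0 hM20
          nlinarith
        calc m * (M2 * g ^ (3 / 5 : ℝ)) = (m * M2) * g ^ (3 / 5 : ℝ) := by ring
          _ ≤ (1 + m * M2) ^ 2 * (g ^ (1 / 5 : ℝ)) ^ 2 :=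
              mul_le_mul f3 f2 (Real.rpow_nonneg hg.le _) (sq_nonneg _)
          _ = _ := by ring
      have f4 : 0 ≤ (1 + m * M2) * g ^ (1 / 5 : ℝ) := by positivity
      exact (Real.sqrt_le_sqrt f1).trans (Real.sqrt_sq f4).le
    have e4 : m * Real.sqrt (m * (M2 * g ^ (3 / 5 : ℝ))) ≤ w0 := by
      rw [hw0]
      calc m * Real.sqrt (m * (M2 * g ^ (3 / 5 : ℝ))) ≤ m * ((1 + m * M2) * g ^ (1 / 5 : ℝ)) :=
            mul_le_mul_of_nonneg_left e3 hm0
        _ = _ := by ring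
    have e5 : 0 ≤ m * Real.sqrt (m * (M2 * g ^ (3 / 5 : ℝ))) :=
      mul_nonneg hm0 (Real.sqrt_nonneg _)
    rw [hh, abs_le]
    constructor <;> simp only <;> linarith
  obtain ⟨ε, hε⟩ : ∃ ε : ℝ, ε = M * g ^ (1 / 5 : ℝ) := ⟨_, rfl⟩
  rw [← hε]
  obtain ⟨ρ, hρe⟩ : ∃ ρ : ℝ, ρ = g ^ (3 / 5 : ℝ) := ⟨_, rfl⟩
  have hρ : 0 < ρ := by rw [hρe]; exact Real.rpow_pos_of_pos hg _
  obtain ⟨b, hbs, hbsupp, hb1, hbd⟩ := hb ρ hρ
  obtain ⟨ia, av⟩ := avg hG B μ (smc hc3) hbs hF hb1 g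
  have hbc := smc hbs
  have hFc := smc hF
  obtain ⟨κ, hκ⟩ : ∃ κ : ℝ, κ = w0 + K * g ^ (1 / 5 : ℝ) := ⟨_, rfl⟩
  have hΦ : Continuous (fun U => (h U - κ) * F U ^ 2) :=
    (hhc.sub continuous_const).mul (hFc.pow 2)
  have hpt : ∀ V, ∫ U, ((h U - κ) * F U ^ 2) * (fun W => b W ^ 2) (U * V⁻¹)
      ∂(Measure.pi fun _ : Link D l => μ) ≤ energy B μ g (fun U => b (U * V⁻¹) * F U) := by
    intro V
    have hclose : ∀ U, b (U * V⁻¹) ≠ 0 → ∀ e, ‖mt (U e) - mt (V e)‖ ≤ ρ := by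
      intro U hU e
      have h6 := hbsupp _ hU e
      have h7 : mt ((U * V⁻¹) e) - 1 = (mt (U e) - mt (V e)) * mt (V e)⁻¹ := by
        rw [sub_mul, Pi.mul_apply, Pi.inv_apply, Pool.Agent.Q176.LU.mt_mul, Pool.Agent.Q176.LU.mt_inv, Pool.Agent.Q176.LU.mt_unit]
      rwa [h7, Pool.Agent.Q176.LU.norm_right] at h6
    have h6 := hloc g hg hgg1 V (fun U => b (U * V⁻¹) * F U) (sm_mul (sm_tr hbs V) hF)
      (fun U hU e => by
        rw [← hρe]
        exact hclose U (left_ne_zero_of_mul hU) e)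
    refine le_trans ?_ h6
    rw [← integral_const_mul]
    refine integral_mono (conv_int2 hG μ hΦ (hbc.pow 2) V) ?_ fun U => ?_
    · refine int_of_cont hG μ (continuous_const.mul (((hbc.comp
        (continuous_id.mul continuous_const)).mul hFc).pow 2))
    · show ((h U - κ) * F U ^ 2) * b (U * V⁻¹) ^ 2 ≤
        (1 / 2 * tsq (hess B V) - K * g ^ (1 / 5 : ℝ)) * (b (U * V⁻¹) * F U) ^ 2
      by_cases hz : b (U * V⁻¹) = 0
      · rw [hz]; simp
      · have h7 := hu U V fun e => (hclose U hz e).trans (by rw [hρe])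
        have h8 : h V = 1 / 2 * tsq (hess B V) := by rw [hh]
        rw [← h8]
        have h9 : h U - κ ≤ h V - K * g ^ (1 / 5 : ℝ) := by
          rw [hκ]
          have := (abs_le.1 h7).2
          linarith
        calc (h U - κ) * F U ^ 2 * b (U * V⁻¹) ^ 2 = (h U - κ) * (b (U * V⁻¹) * F U) ^ 2 := by ring
          _ ≤ _ := mul_le_mul_of_nonneg_right h9 (sq_nonneg _)
  have hb2 : Continuous (fun W => b W ^ 2) := hbc.pow 2
  have h10 := integral_mono (conv_int1 hG μ hΦ hb2) ia hpt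
  rw [conv_eq hG μ hΦ hb2, hb1, mul_one, av] at h10
  -- bound of the localisation error
  obtain ⟨q, hq⟩ : ∃ q, q = ∫ U, F U ^ 2 ∂(Measure.pi fun _ : Link D l => μ) := ⟨_, rfl⟩
  have hq0 : 0 ≤ q := by rw [hq]; exact integral_nonneg fun U => sq_nonneg _
  have h11 : ∑ e, ∑ a, ∫ W, dlink B e a b W ^ 2 ∂(Measure.pi fun _ : Link D l => μ) ≤
      m * (K' / ρ ^ 2) := by
    calc ∑ e, ∑ a, ∫ W, dlink B e a b W ^ 2 ∂(Measure.pi fun _ : Link D l => μ)
        ≤ ∑ _e : Link D l, ∑ _a : Fin n, K' / ρ ^ 2 :=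
          Finset.sum_le_sum fun e _ => Finset.sum_le_sum fun a _ => hbd e a
      _ = m * (K' / ρ ^ 2) := by
          rw [Finset.sum_const, Finset.sum_const, Finset.card_univ, Finset.card_univ,
            Fintype.card_fin, nsmul_eq_mul, nsmul_eq_mul, hm, mul_assoc]
  have h12 : g ^ 2 / ρ ^ 2 = g ^ (4 / 5 : ℝ) := by
    rw [hρe, ← Real.rpow_natCast (g ^ (3 / 5 : ℝ)) 2, ← Real.rpow_mul hg.le,
      ← Real.rpow_natCast g 2, ← Real.rpow_sub hg]
    norm_num
  have h13 : g ^ 2 / 2 * (∑ e, ∑ a, ∫ W, dlink B e a b W ^ 2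
      ∂(Measure.pi fun _ : Link D l => μ)) ≤ m * K' * g ^ (1 / 5 : ℝ) := by
    calc g ^ 2 / 2 * (∑ e, ∑ a, ∫ W, dlink B e a b W ^ 2 ∂(Measure.pi fun _ : Link D l => μ))
        ≤ g ^ 2 / 2 * (m * (K' / ρ ^ 2)) := mul_le_mul_of_nonneg_left h11 (by positivity)
      _ = m * K' / 2 * (g ^ 2 / ρ ^ 2) := by ring
      _ = m * K' / 2 * g ^ (4 / 5 : ℝ) := by rw [h12]
      _ ≤ m * K' * g ^ (1 / 5 : ℝ) := by
          have e1 := rpow_le_fifth hg hg1' (by norm_num : (1 / 5 : ℝ) ≤ 4 / 5)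
          have e2 : 0 ≤ m * K' := by positivity
          have e3 : 0 ≤ g ^ (4 / 5 : ℝ) := Real.rpow_nonneg hg.le _
          nlinarith
  have h14 := mul_le_mul_of_nonneg_right h13 hq0
  rw [← hq] at h10
  have h15 : ∫ U, (1 / 2 * tsq (hess B U) - ε) * F U ^ 2 ∂(Measure.pi fun _ : Link D l => μ) =
      (∫ U, (h U - κ) * F U ^ 2 ∂(Measure.pi fun _ : Link D l => μ)) - (ε - κ) * q := by
    have hΦ2 : Continuous (fun U => (ε - κ) * F U ^ 2) := continuous_const.mul (hFc.pow 2)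
    rw [hq, ← integral_const_mul, ← integral_sub (int_of_cont hG μ hΦ)
      (int_of_cont hG μ hΦ2)]
    refine integral_congr_ae (Eventually.of_forall fun U => ?_)
    show (1 / 2 * tsq (hess B U) - ε) * F U ^ 2 = (h U - κ) * F U ^ 2 - (ε - κ) * F U ^ 2
    rw [hh]
    ring
  rw [h15]
  have h16 : m * K' * g ^ (1 / 5 : ℝ) * q ≤ (ε - κ) * q := by
    refine mul_le_mul_of_nonneg_right ?_ hq0
    rw [hκ, hε, hw0]
    have := mul_le_mul_of_nonneg_right hMk hgr0.le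
    linarith
  linarith


end

end Pool.Agent.Q38.LU
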