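import Pool.Agent.Q38.LU.Sim1
import Pool.Agent.Q77.LU.StmH

/-! Project LU (helper77), job SIM: Simon's inequality for Yang-Mills quantum mechanics. -/

set_option autoImplicit false
set_option linter.unusedSectionVars false
set_option linter.unusedVariables false

namespace Pool.Agent.Q38.LU.SIM

open MeasureTheory Set Filter Topology Matrix
open scoped ContDiff Matrix.Norms.Frobenius
open Pool.Agent.Q77.LU

noncomputable section

section tens

variable {D n : ℕ} {ι : Type} [Fintype ι] (c : ι → Fin n → Fin n → ℝ)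

/-- the quartic potential of a tensor -/
def VV (x : Fin D × Fin n → ℝ) : ℝ :=
  1 / 2 * ∑ i : Fin D, ∑ j : Fin D, if i < j then ∑ e, LL c e i j x ^ 2 else 0

/-- the linear potential of a tensor -/
def RR (x : Fin D × Fin n → ℝ) : ℝ := ∑ e, ∑ i : Fin D, √(SS c e i x)

theorem ite_sum (i : Fin D) (F : Fin D → ℝ) :
    (∑ j, if i ≠ j then F j else 0) = (∑ j, F j) - F i := by
  have : ∀ j, (if i ≠ j then F j else 0) = F j - if i = j then F j else 0 := by
    intro j
    by_cases h : i = j
    · simp [h]
    · simp [h]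
  rw [Finset.sum_congr rfl fun j _ => this j, Finset.sum_sub_distrib, Finset.sum_ite_eq]
  simp

/-- the off diagonal sum is twice the sum over `i < j` -/
theorem off {F : Fin D → Fin D → ℝ} (hs : ∀ i j, F i j = F j i) :
    (∑ i, ∑ j, if i ≠ j then F i j else 0) = 2 * ∑ i, ∑ j, if i < j then F i j else 0 := by
  have h1 : ∀ i j : Fin D, (if i ≠ j then F i j else 0) =
      (if i < j then F i j else 0) + if j < i then F j i else 0 := by
    intro i j
    rcases lt_trichotomy i j with h | h | h
    · simp [h, h.ne, h.not_gt]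
    · simp [h]
    · simp [h, h.ne', h.not_gt, hs i j]
  simp only [h1, Finset.sum_add_distrib]
  rw [Finset.sum_comm (f := fun i j => if j < i then F j i else 0)]
  ring

theorem main (hD : 2 ≤ D) (hsym : ∀ e i j (x : Fin D × Fin n → ℝ), LL c e i j x ^ 2 = LL c e j i x ^ 2) :
    ∃ κ : ℝ, 0 < κ ∧ ∀ f : (Fin D × Fin n → ℝ) → ℝ, ContDiff ℝ 1 f → HasCompactSupport f →
      κ * ∫ x, RR c x * f x ^ 2 ≤ qf (VV c) f := by
  set m : ℝ := (Fintype.card ι : ℝ) with hm
  have hm0 : 0 ≤ m := Nat.cast_nonneg _
  set r : ℝ := 1 / (2 * m * D + 2) with hr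
  have hr0 : 0 < r := by positivity
  have hr1 : r * (2 * m * D + 2) = 1 := by
    rw [hr]; field_simp
  refine ⟨r * (1 / 2), by positivity, fun f hf hc => ?_⟩
  have cf := hf.continuous
  have s2 : HasCompactSupport fun x => f x ^ 2 := sq_supp hc
  have cR : Continuous (RR (D := D) c) := by
    unfold RR
    exact continuous_finsetSum _ fun e _ => continuous_finsetSum _ fun i _ => (SS_cont c e i).sqrt
  have cV : Continuous (VV (D := D) c) := by
    unfold VV
    refine continuous_const.mul (continuous_finsetSum _ fun i _ => continuous_finsetSum _ fun j _ => ?_)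
    split_ifs
    · exact continuous_finsetSum _ fun e _ => (LL_cont c e i j).pow 2
    · exact continuous_const
  have IR : Integrable fun x => RR c x * f x ^ 2 := integ cR (cf.pow 2) s2
  have If : Integrable fun x => f x ^ 2 := by
    have := integ (G := fun _ : Fin D × Fin n → ℝ => (1 : ℝ)) continuous_const
      (cf.pow 2) s2
    simpa using this
  have I4 : ∀ p, Integrable fun x => pd f p x ^ 2 := by
    intro b
    have := integ (G := fun _ : Fin D × Fin n → ℝ => (1 : ℝ)) continuous_const
      ((pd_cont hf b).pow 2) (sq_supp (pd_supp hc b))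
    simpa using this
  have IV : Integrable fun x => VV c x * f x ^ 2 := integ cV (cf.pow 2) s2
  have Ig : Integrable fun x => g2 f x := by
    unfold g2
    exact integrable_finsetSum _ fun p _ => I4 p
  -- the terms
  let A : ℝ → ι → Fin D → Fin D → (Fin D × Fin n → ℝ) → ℝ := fun δ e i j x =>
    if i ≠ j then r * (1 / 2) * (√(SS c e i x) - δ) * f x ^ 2 else 0
  let Bt : ι → Fin D → Fin D → (Fin D × Fin n → ℝ) → ℝ := fun e i j x =>
    if i ≠ j then r ^ 2 * (∑ b, pd f (j, b) x ^ 2) + (1 / 2) ^ 2 * (LL c e i j x ^ 2 * f x ^ 2) else 0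
  have IA : ∀ δ e i j, Integrable (A δ e i j) := by
    intro δ e i j
    by_cases h : i ≠ j
    · simp only [A, if_pos h]
      exact integ (continuous_const.mul ((SS_cont c e i).sqrt.sub continuous_const)) (cf.pow 2) s2
    · simp only [A, if_neg h]
      exact integrable_zero _ _ _
  have IB : ∀ e i j, Integrable (Bt e i j) := by
    intro e i j
    by_cases h : i ≠ j
    · simp only [Bt, if_pos h]
      refine ((integrable_finsetSum _ fun b _ => I4 (j, b)).const_mul _).add ?_
      have := integ (G := fun x => (1 / 2 : ℝ) ^ 2 * LL c e i j x ^ 2)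
        (continuous_const.mul ((LL_cont c e i j).pow 2)) (cf.pow 2) s2
      refine this.congr (Eventually.of_forall fun x => ?_)
      simp only [Pi.pow_apply]
      ring
    · simp only [Bt, if_neg h]
      exact integrable_zero _ _ _
  have hAB : ∀ δ, 0 < δ → ∀ e i j, ∫ x, A δ e i j x ≤ ∫ x, Bt e i j x := by
    intro δ hδ e i j
    by_cases h : i ≠ j
    · simp only [A, Bt, if_pos h]
      exact osc c hf hc h e hδ hr0.le (by norm_num)
    · simp only [A, Bt, if_neg h]
      exact le_rfl
  have hS : ∀ δ, 0 < δ → ∫ x, ∑ e, ∑ i, ∑ j, A δ e i j x ≤ ∫ x, ∑ e, ∑ i, ∑ j, Bt e i j x := by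
    intro δ hδ
    rw [integral_finsetSum _ fun e _ => integrable_finsetSum _ fun i _ =>
        integrable_finsetSum _ fun j _ => IA δ e i j,
      integral_finsetSum _ fun e _ => integrable_finsetSum _ fun i _ =>
        integrable_finsetSum _ fun j _ => IB e i j]
    refine Finset.sum_le_sum fun e _ => ?_
    rw [integral_finsetSum _ fun i _ => integrable_finsetSum _ fun j _ => IA δ e i j,
      integral_finsetSum _ fun i _ => integrable_finsetSum _ fun j _ => IB e i j]
    refine Finset.sum_le_sum fun i _ => ?_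
    rw [integral_finsetSum _ fun j _ => IA δ e i j, integral_finsetSum _ fun j _ => IB e i j]
    exact Finset.sum_le_sum fun j _ => hAB δ hδ e i j
  -- upper bound of the right hand side
  have hB : ∫ x, ∑ e, ∑ i, ∑ j, Bt e i j x ≤ qf (VV c) f := by
    unfold qf
    refine integral_mono (integrable_finsetSum _ fun e _ => integrable_finsetSum _ fun i _ =>
        integrable_finsetSum _ fun j _ => IB e i j) ((Ig.const_mul _).add IV) fun x => ?_
    show ∑ e, ∑ i, ∑ j, Bt e i j x ≤ 1 / 2 * g2 f x + VV c x * f x ^ 2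
    have hg : g2 f x = ∑ j, ∑ b, pd f (j, b) x ^ 2 := by
      unfold g2
      rw [Fintype.sum_prod_type]
    have hgn : 0 ≤ g2 f x := Finset.sum_nonneg fun _ _ => sq_nonneg _
    have b1 : ∀ e i, ∑ j, Bt e i j x ≤ r ^ 2 * g2 f x +
        (1 / 2) ^ 2 * f x ^ 2 * ∑ j, if i ≠ j then LL c e i j x ^ 2 else 0 := by
      intro e i
      rw [hg, Finset.mul_sum, Finset.mul_sum, ← Finset.sum_add_distrib]
      refine Finset.sum_le_sum fun j _ => ?_
      by_cases h : i ≠ j
      · simp only [Bt, if_pos h]
        apply le_of_eq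
        ring
      · simp only [Bt, if_neg h]
        have : 0 ≤ ∑ b, pd f (j, b) x ^ 2 := Finset.sum_nonneg fun _ _ => sq_nonneg _
        simp only [mul_zero, add_zero]
        positivity
    have b2 : ∑ e, ∑ i, ∑ j, Bt e i j x ≤ m * D * (r ^ 2 * g2 f x) + VV c x * f x ^ 2 := by
      calc ∑ e, ∑ i, ∑ j, Bt e i j x ≤ ∑ e, ∑ i, (r ^ 2 * g2 f x +
          (1 / 2) ^ 2 * f x ^ 2 * ∑ j, if i ≠ j then LL c e i j x ^ 2 else 0) :=
            Finset.sum_le_sum fun e _ => Finset.sum_le_sum fun i _ => b1 e i
        _ = m * D * (r ^ 2 * g2 f x) + (1 / 2) ^ 2 * f x ^ 2 *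
            ∑ e, ∑ i, ∑ j, (if i ≠ j then LL c e i j x ^ 2 else 0) := by
            simp only [Finset.sum_add_distrib, Finset.sum_const, Finset.card_univ,
              Fintype.card_fin, nsmul_eq_mul, ← Finset.mul_sum]
            rw [hm]
            ring
        _ = m * D * (r ^ 2 * g2 f x) + VV c x * f x ^ 2 := by
            have : ∑ e, ∑ i, ∑ j, (if i ≠ j then LL c e i j x ^ 2 else 0) = 4 * VV c x := by
              have h1 : ∀ e, ∑ i : Fin D, ∑ j, (if i ≠ j then LL c e i j x ^ 2 else 0) =
                  2 * ∑ i : Fin D, ∑ j, (if i < j then LL c e i j x ^ 2 else 0) := fun e =>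
                off (F := fun i j => LL c e i j x ^ 2) fun i j => hsym e i j x
              rw [Finset.sum_congr rfl fun e _ => h1 e, ← Finset.mul_sum]
              unfold VV
              rw [Finset.sum_comm]
              have h2 : ∀ i : Fin D, ∑ e, ∑ j, (if i < j then LL c e i j x ^ 2 else 0) =
                  ∑ j, if i < j then ∑ e, LL c e i j x ^ 2 else 0 := by
                intro i
                rw [Finset.sum_comm]
                refine Finset.sum_congr rfl fun j _ => ?_
                split_ifs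
                · rfl
                · simp
              rw [Finset.sum_congr rfl fun i _ => h2 i]
              ring
            rw [this]
            ring
    refine b2.trans ?_
    have : m * D * r ^ 2 ≤ 1 / 2 := by
      have hD0 : (0 : ℝ) ≤ D := Nat.cast_nonneg _
      have hmd : 0 ≤ m * D := by positivity
      have hr2 : r ≤ 1 := by nlinarith [mul_nonneg hr0.le hmd]
      nlinarith [mul_nonneg hr0.le hmd, mul_nonneg (mul_nonneg hr0.le hmd) hr0.le]
    nlinarith [mul_le_mul_of_nonneg_right this hgn]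
  -- lower bound of the left hand side
  have hA : ∀ δ, 0 < δ → r * (1 / 2) * (∫ x, RR c x * f x ^ 2) -
      δ * (r * (1 / 2) * (m * D * (D - 1)) * ∫ x, f x ^ 2) ≤ ∫ x, ∑ e, ∑ i, ∑ j, A δ e i j x := by
    intro δ hδ
    rw [← integral_const_mul, ← integral_const_mul, ← integral_const_mul, ← integral_sub
      (IR.const_mul _) ((If.const_mul _).const_mul _)]
    refine integral_mono ((IR.const_mul _).sub ((If.const_mul _).const_mul _))
      (integrable_finsetSum _ fun e _ => integrable_finsetSum _ fun i _ =>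
        integrable_finsetSum _ fun j _ => IA δ e i j) fun x => ?_
    show r * (1 / 2) * (RR c x * f x ^ 2) - δ * (r * (1 / 2) * (m * D * (D - 1)) * f x ^ 2) ≤
      ∑ e, ∑ i, ∑ j, A δ e i j x
    have a1 : ∀ e i, ∑ j, A δ e i j x =
        (D - 1) * (r * (1 / 2) * (√(SS c e i x) - δ) * f x ^ 2) := by
      intro e i
      simp only [A]
      rw [ite_sum i (fun _ => r * (1 / 2) * (√(SS c e i x) - δ) * f x ^ 2)]
      rw [Finset.sum_const, Finset.card_univ, Fintype.card_fin, nsmul_eq_mul]
      ring
    have a2 : ∑ e, ∑ i, ∑ j, A δ e i j x = (D - 1) * (r * (1 / 2) * f x ^ 2) *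
        (RR c x - m * D * δ) := by
      have a3 : ∀ e i, ∑ j, A δ e i j x =
        (D - 1) * (r * (1 / 2) * f x ^ 2) * (√(SS c e i x) - δ) := by
        intro e i
        rw [a1]; ring
      simp only [a3, ← Finset.mul_sum, Finset.sum_sub_distrib, Finset.sum_const,
        Finset.card_univ, Fintype.card_fin, nsmul_eq_mul]
      unfold RR
      rw [hm]
      ring
    rw [a2]
    have hR : 0 ≤ RR c x := Finset.sum_nonneg fun _ _ => Finset.sum_nonneg fun _ _ =>
      Real.sqrt_nonneg _
    have hD2 : (2 : ℝ) ≤ D := by exact_mod_cast hD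
    have h1 : 0 ≤ r * (1 / 2) * f x ^ 2 := by positivity
    nlinarith [mul_nonneg (mul_nonneg h1 hR) (sub_nonneg.2 hD2)]
  -- the limit
  set P := r * (1 / 2) * ∫ x, RR c x * f x ^ 2
  set Q := r * (1 / 2) * (m * D * (D - 1)) * ∫ x, f x ^ 2
  have hfin : ∀ δ, 0 < δ → P - δ * Q ≤ qf (VV c) f := fun δ hδ =>
    (hA δ hδ).trans ((hS δ hδ).trans hB)
  have hlim : Tendsto (fun δ : ℝ => P - δ * Q) (𝓝[>] 0) (𝓝 P) := by
    have : Tendsto (fun δ : ℝ => P - δ * Q) (𝓝 0) (𝓝 (P - 0 * Q)) :=
      (continuous_const.sub (continuous_id.mul continuous_const)).tendsto 0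
    rw [zero_mul, sub_zero] at this
    exact this.mono_left nhdsWithin_le_nhds
  exact le_of_tendsto hlim (by
    filter_upwards [self_mem_nhdsWithin] with δ hδ using hfin δ hδ)

/-- `nr` is bounded by the linear potential -/
theorem nr_le (hinj : ∀ v : Fin n → ℝ, (∀ e b, ∑ a, v a * c e a b = 0) → v = 0) :
    ∃ K : ℝ, 0 < K ∧ ∀ x : Fin D × Fin n → ℝ, nr x ≤ K * RR c x := by
  let T : (Fin n → ℝ) →ₗ[ℝ] (ι → Fin n → ℝ) :=
    { toFun := fun v e b => ∑ a, v a * c e a b
      map_add' := by
        intro v w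
        funext e b
        simp [add_mul, Finset.sum_add_distrib]
      map_smul' := by
        intro t v
        funext e b
        simp [Finset.mul_sum, mul_assoc] }
  have hT : LinearMap.ker T = ⊥ := by
    rw [LinearMap.ker_eq_bot']
    intro v hv
    exact hinj v fun e b => congrFun (congrFun hv e) b
  obtain ⟨K, hK, hanti⟩ := (LinearMap.injective_iff_antilipschitz T).1 (LinearMap.ker_eq_bot.1 hT)
  have h1 : ∀ v, ‖v‖ ≤ K * ‖T v‖ := fun v => by
    have := hanti.le_mul_dist v 0
    simpa using this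
  refine ⟨n * K + 1, by positivity, fun x => ?_⟩
  have h2 : ∀ i, ‖T (fun a => x (i, a))‖ ≤ ∑ e, √(SS c e i x) := by
    intro i
    rw [pi_norm_le_iff_of_nonneg (Finset.sum_nonneg fun _ _ => Real.sqrt_nonneg _)]
    intro e
    refine le_trans ?_ (Finset.single_le_sum (f := fun e => √(SS c e i x))
      (fun _ _ => Real.sqrt_nonneg _) (Finset.mem_univ e))
    rw [pi_norm_le_iff_of_nonneg (Real.sqrt_nonneg _)]
    intro b
    rw [Real.norm_eq_abs]
    apply Real.abs_le_sqrt
    unfold SS
    exact Finset.single_le_sum (f := fun b => Sb c e i b x ^ 2) (fun _ _ => sq_nonneg _)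
      (Finset.mem_univ b)
  have h3 : nr x ≤ ∑ i, ∑ a, |x (i, a)| := by
    unfold nr n2
    rw [Fintype.sum_prod_type]
    apply Real.sqrt_le_iff.2
    constructor
    · exact Finset.sum_nonneg fun _ _ => Finset.sum_nonneg fun _ _ => abs_nonneg _
    · rw [← Fintype.sum_prod_type (f := fun p : Fin D × Fin n => x (p.1, p.2) ^ 2),
        ← Fintype.sum_prod_type (f := fun p : Fin D × Fin n => |x (p.1, p.2)|)]
      have := Finset.sum_sq_le_sq_sum_of_nonneg (s := Finset.univ)
        (f := fun p : Fin D × Fin n => |x (p.1, p.2)|) (fun _ _ => abs_nonneg _)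
      simpa using this
  have h4 : ∀ i, ∑ a, |x (i, a)| ≤ n * ‖fun a => x (i, a)‖ := by
    intro i
    calc ∑ a, |x (i, a)| ≤ ∑ a : Fin n, ‖fun a => x (i, a)‖ :=
          Finset.sum_le_sum fun a _ => norm_le_pi_norm (fun a => x (i, a)) a
      _ = n * ‖fun a => x (i, a)‖ := by
          rw [Finset.sum_const, Finset.card_univ, Fintype.card_fin, nsmul_eq_mul]
  have hR : 0 ≤ RR c x := Finset.sum_nonneg fun _ _ => Finset.sum_nonneg fun _ _ =>
    Real.sqrt_nonneg _
  calc nr x ≤ ∑ i, ∑ a, |x (i, a)| := h3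
    _ ≤ ∑ i, n * (K * ∑ e, √(SS c e i x)) := Finset.sum_le_sum fun i _ =>
        (h4 i).trans (mul_le_mul_of_nonneg_left ((h1 _).trans
          (mul_le_mul_of_nonneg_left (h2 i) K.2)) (Nat.cast_nonneg _))
    _ = n * K * RR c x := by
        unfold RR
        rw [Finset.sum_comm, ← Finset.mul_sum, ← Finset.mul_sum]
        ring
    _ ≤ (n * K + 1) * RR c x := by nlinarith

end tens

/-! ### the tensor of the Lie algebra -/

section lie

variable {N n D : ℕ} {G : Subgroup (UU N)}

/-- real and imaginary parts of the entries -/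
def comp (e : (Fin N × Fin N) × Bool) (M : Mt N) : ℝ :=
  if e.2 then (M e.1.1 e.1.2).re else (M e.1.1 e.1.2).im

theorem comp_add (e : (Fin N × Fin N) × Bool) (M M' : Mt N) :
    comp e (M + M') = comp e M + comp e M' := by
  unfold comp
  split_ifs <;> simp

theorem comp_sub (e : (Fin N × Fin N) × Bool) (M M' : Mt N) :
    comp e (M - M') = comp e M - comp e M' := by
  unfold comp
  split_ifs <;> simp

theorem comp_smul (e : (Fin N × Fin N) × Bool) (t : ℝ) (M : Mt N) :
    comp e (t • M) = t * comp e M := by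
  unfold comp
  split_ifs <;> simp [Matrix.smul_apply]

theorem comp_zero (e : (Fin N × Fin N) × Bool) : comp e (0 : Mt N) = 0 := by
  unfold comp
  split_ifs <;> simp

theorem comp_sum (e : (Fin N × Fin N) × Bool) {α : Type} (s : Finset α) (M : α → Mt N) :
    comp e (∑ a ∈ s, M a) = ∑ a ∈ s, comp e (M a) := by
  classical
  induction s using Finset.induction_on with
  | empty => simp [comp_zero]
  | insert a s ha ih => rw [Finset.sum_insert ha, Finset.sum_insert ha, comp_add, ih]

theorem comp_eq {M M' : Mt N} (h : ∀ e, comp e M = comp e M') : M = M' := by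
  ext p q
  apply Complex.ext
  · simpa [comp] using h ((p, q), true)
  · simpa [comp] using h ((p, q), false)

theorem fro2_eq (M : Mt N) : fro2 M = ∑ e, comp e M ^ 2 := by
  unfold fro2
  rw [Fintype.sum_prod_type, Fintype.sum_prod_type, Matrix.trace, Complex.re_sum,
    Finset.sum_comm]
  refine Finset.sum_congr rfl fun p _ => ?_
  rw [Matrix.diag_apply, Matrix.mul_apply, Complex.re_sum]
  refine Finset.sum_congr rfl fun q _ => ?_
  rw [Matrix.conjTranspose_apply]
  simp [comp]
  ring

/-- structure tensor -/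
def ct (B : LieBasis G n) (e : (Fin N × Fin N) × Bool) (a b : Fin n) : ℝ :=
  comp e (B.X a * B.X b - B.X b * B.X a)

theorem lin_comm_right (B : LieBasis G n) (v : Fin n → ℝ) (b : Fin n) :
    lin B v * B.X b - B.X b * lin B v = ∑ a, v a • (B.X a * B.X b - B.X b * B.X a) := by
  unfold lin
  rw [Finset.sum_mul, Finset.mul_sum, ← Finset.sum_sub_distrib]
  refine Finset.sum_congr rfl fun a _ => ?_
  rw [smul_sub, Matrix.smul_mul, Matrix.mul_smul]

theorem lin_comm (B : LieBasis G n) (v w : Fin n → ℝ) :
    lin B v * lin B w - lin B w * lin B v =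
      ∑ b, w b • ∑ a, v a • (B.X a * B.X b - B.X b * B.X a) := by
  have : lin B v * lin B w - lin B w * lin B v =
      ∑ b, w b • (lin B v * B.X b - B.X b * lin B v) := by
    conv_lhs => rw [show lin B w = ∑ b, w b • B.X b from rfl]
    rw [Finset.sum_mul, Finset.mul_sum, ← Finset.sum_sub_distrib]
    refine Finset.sum_congr rfl fun a _ => ?_
    rw [smul_sub, Matrix.smul_mul, Matrix.mul_smul]
  rw [this]
  exact Finset.sum_congr rfl fun b _ => by rw [lin_comm_right]

theorem LL_eq (B : LieBasis G n) (e : (Fin N × Fin N) × Bool) (i j : Fin D)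
    (x : Fin D × Fin n → ℝ) :
    LL (ct B) e i j x = comp e (lin B (fun a => x (i, a)) * lin B (fun a => x (j, a)) -
      lin B (fun a => x (j, a)) * lin B (fun a => x (i, a))) := by
  rw [lin_comm, comp_sum]
  unfold LL Sb
  refine Finset.sum_congr rfl fun b _ => ?_
  rw [comp_smul, comp_sum, mul_comm]
  congr 1
  refine Finset.sum_congr rfl fun a _ => ?_
  rw [comp_smul]
  rfl

theorem VV_eq (B : LieBasis G n) : VV (ct B) = vred B D := by
  funext x
  unfold VV vred
  congr 1
  refine Finset.sum_congr rfl fun i _ => Finset.sum_congr rfl fun j _ => ?_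
  split_ifs
  · rw [fro2_eq]
    exact Finset.sum_congr rfl fun e _ => by rw [LL_eq]
  · rfl

end lie

theorem t_SIM : S_SIM := by
  intro N n D G hG B hB hD
  have hsym : ∀ e i j (x : Fin D × Fin n → ℝ), LL (ct B) e i j x ^ 2 = LL (ct B) e j i x ^ 2 := by
    intro e i j x
    rw [LL_eq, LL_eq, comp_sub, comp_sub]
    ring
  have hinj : ∀ v : Fin n → ℝ, (∀ e b, ∑ a, v a * ct B e a b = 0) → v = 0 := by
    intro v hv
    apply hB v
    intro b
    rw [← sub_eq_zero, lin_comm_right]
    apply comp_eq
    intro e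
    rw [comp_sum, comp_zero, ← hv e b]
    exact Finset.sum_congr rfl fun a _ => by rw [comp_smul]; rfl
  obtain ⟨κ, hκ, h1⟩ := main (ct B) hD hsym
  obtain ⟨K, hK, h2⟩ := nr_le (D := D) (ct B) hinj
  refine ⟨κ / K, by positivity, fun f hf hc => ?_⟩
  have h3 := h1 f hf hc
  rw [VV_eq] at h3
  refine le_trans ?_ h3
  have cf := hf.continuous
  have s2 : HasCompactSupport fun x => f x ^ 2 := sq_supp hc
  have cR : Continuous (RR (D := D) (ct B)) := by
    unfold RR
    exact continuous_finsetSum _ fun e _ => continuous_finsetSum _ fun i _ =>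
      (SS_cont (ct B) e i).sqrt
  have IR : Integrable fun x => RR (ct B) x * f x ^ 2 := integ cR (cf.pow 2) s2
  have cn : Continuous (nr : (Fin D × Fin n → ℝ) → ℝ) := by
    unfold nr n2
    fun_prop
  have In : Integrable fun x => nr x * f x ^ 2 := integ cn (cf.pow 2) s2
  have h4 : ∫ x, nr x * f x ^ 2 ≤ K * ∫ x, RR (ct B) x * f x ^ 2 := by
    rw [← integral_const_mul]
    refine integral_mono In (IR.const_mul _) fun x => ?_
    show nr x * f x ^ 2 ≤ K * (RR (ct B) x * f x ^ 2)
    rw [← mul_assoc]
    exact mul_le_mul_of_nonneg_right (h2 x) (sq_nonneg _)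
  calc κ / K * ∫ x, nr x * f x ^ 2 ≤ κ / K * (K * ∫ x, RR (ct B) x * f x ^ 2) :=
        mul_le_mul_of_nonneg_left h4 (by positivity)
    _ = κ * ∫ x, RR (ct B) x * f x ^ 2 := by field_simp

end

end Pool.Agent.Q38.LU.SIM
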