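import Pool.Agent.Q77.LU.StmA

/-! Project LU (helper77), job SIM, part 1: the oscillator inequality for a tensor. -/

set_option autoImplicit false
set_option linter.unusedSectionVars false
set_option linter.unusedVariables false

namespace Pool.Agent.Q38.LU.SIM

open MeasureTheory Set Filter Topology
open scoped ContDiff
open Pool.Agent.Q77.LU

noncomputable section

variable {D n : ℕ} {ι : Type} [Fintype ι] (c : ι → Fin n → Fin n → ℝ)

/-- coefficients of the linear form `w ↦ c e (x_i, w)` -/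
def Sb (e : ι) (i : Fin D) (b : Fin n) (x : Fin D × Fin n → ℝ) : ℝ := ∑ a, x (i, a) * c e a b

/-- `c e (x_i, x_j)` -/
def LL (e : ι) (i j : Fin D) (x : Fin D × Fin n → ℝ) : ℝ := ∑ b, Sb c e i b x * x (j, b)

/-- length of the linear form -/
def SS (e : ι) (i : Fin D) (x : Fin D × Fin n → ℝ) : ℝ := ∑ b, Sb c e i b x ^ 2

/-- regularised length -/
def WW (δ : ℝ) (e : ι) (i : Fin D) (x : Fin D × Fin n → ℝ) : ℝ := √(SS c e i x + δ ^ 2)

theorem Sb_cont (e : ι) (i : Fin D) (b : Fin n) : Continuous (Sb c e i b) := by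
  unfold Sb
  fun_prop

theorem LL_cont (e : ι) (i j : Fin D) : Continuous (LL c e i j) := by
  unfold LL
  exact continuous_finsetSum _ fun b _ => (Sb_cont c e i b).mul (by fun_prop)

theorem SS_cont (e : ι) (i : Fin D) : Continuous (SS c e i) := by
  unfold SS
  exact continuous_finsetSum _ fun b _ => (Sb_cont c e i b).pow 2

theorem SS_nn (e : ι) (i : Fin D) (x : Fin D × Fin n → ℝ) : 0 ≤ SS c e i x :=
  Finset.sum_nonneg fun _ _ => sq_nonneg _

theorem WW_cont (δ : ℝ) (e : ι) (i : Fin D) : Continuous (WW c δ e i) := by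
  unfold WW
  exact ((SS_cont c e i).add continuous_const).sqrt

theorem WW_pos {δ : ℝ} (hδ : 0 < δ) (e : ι) (i : Fin D) (x : Fin D × Fin n → ℝ) :
    0 < WW c δ e i x := by
  unfold WW
  have := SS_nn c e i x
  positivity

theorem WW_sq {δ : ℝ} (e : ι) (i : Fin D) (x : Fin D × Fin n → ℝ) :
    WW c δ e i x ^ 2 = SS c e i x + δ ^ 2 := by
  unfold WW
  rw [Real.sq_sqrt]
  have := SS_nn c e i x
  positivity

theorem Sb_shift {i j : Fin D} (hij : i ≠ j) (e : ι) (b b' : Fin n) (x : Fin D × Fin n → ℝ) (t : ℝ) :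
    Sb c e i b (x + t • Pi.single (j, b') 1) = Sb c e i b x := by
  unfold Sb
  refine Finset.sum_congr rfl fun a _ => ?_
  have : (Pi.single (j, b') (1 : ℝ) : Fin D × Fin n → ℝ) (i, a) = 0 := by
    rw [Pi.single_apply, if_neg]
    intro h
    exact hij (congrArg Prod.fst h)
  rw [Pi.add_apply, Pi.smul_apply, this, smul_zero, add_zero]

theorem SS_shift {i j : Fin D} (hij : i ≠ j) (e : ι) (b' : Fin n) (x : Fin D × Fin n → ℝ) (t : ℝ) :
    SS c e i (x + t • Pi.single (j, b') 1) = SS c e i x := by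
  unfold SS
  exact Finset.sum_congr rfl fun b _ => by rw [Sb_shift c hij]

theorem LL_shift {i j : Fin D} (hij : i ≠ j) (e : ι) (b' : Fin n) (x : Fin D × Fin n → ℝ) (t : ℝ) :
    LL c e i j (x + t • Pi.single (j, b') 1) = LL c e i j x + t * Sb c e i b' x := by
  unfold LL
  have h1 : ∀ b, Sb c e i b (x + t • Pi.single (j, b') 1) *
      (x + t • (Pi.single (j, b') (1 : ℝ) : Fin D × Fin n → ℝ)) (j, b)
      = Sb c e i b x * x (j, b) + if b = b' then t * Sb c e i b' x else 0 := by
    intro b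
    rw [Sb_shift c hij, Pi.add_apply, Pi.smul_apply, Pi.single_apply, smul_eq_mul]
    by_cases hb : b = b'
    · subst hb
      simp
      ring
    · have : ¬ ((j, b) = (j, b')) := fun h => hb (congrArg Prod.snd h)
      rw [if_neg this, if_neg hb]
      ring
  rw [Finset.sum_congr rfl fun b _ => h1 b, Finset.sum_add_distrib]
  simp

/-- integrability -/
theorem integ {X : Type} [NormedAddCommGroup X] [NormedSpace ℝ X] [MeasureSpace X] [BorelSpace X]
    [IsFiniteMeasureOnCompacts (volume : Measure X)] {G F : X → ℝ} (hG : Continuous G)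
    (hF : Continuous F) (hc : HasCompactSupport F) : Integrable fun x => G x * F x :=
  (hG.mul hF).integrable_of_hasCompactSupport (hc.mul_left)

variable {f : (Fin D × Fin n → ℝ) → ℝ}

theorem pd_cont (hf : ContDiff ℝ 1 f) (p : Fin D × Fin n) : Continuous (pd f p) :=
  (hf.continuous_fderiv one_ne_zero).clm_apply continuous_const

theorem pd_supp (hc : HasCompactSupport f) (p : Fin D × Fin n) : HasCompactSupport (pd f p) :=
  hc.fderiv_apply ℝ _

theorem sq_supp {g : (Fin D × Fin n → ℝ) → ℝ} (hc : HasCompactSupport g) :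
    HasCompactSupport fun x => g x ^ 2 := by
  have : (fun x => g x ^ 2) = (fun y : ℝ => y ^ 2) ∘ g := rfl
  rw [this]
  exact hc.comp_left (by simp)

/-- integration by parts -/
theorem parts (hf : ContDiff ℝ 1 f) (hc : HasCompactSupport f) {i j : Fin D} (hij : i ≠ j) (e : ι)
    (b : Fin n) {δ : ℝ} (hδ : 0 < δ) :
    ∫ x, LL c e i j x * Sb c e i b x / WW c δ e i x * (2 * f x * pd f (j, b) x)
      = -∫ x, Sb c e i b x ^ 2 / WW c δ e i x * f x ^ 2 := by
  have w0 : ∀ x, WW c δ e i x ≠ 0 := fun x => (WW_pos c hδ e i x).ne'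
  have cw := WW_cont c δ e i
  have cs := Sb_cont c e i b
  have cl := LL_cont c e i j
  have cf := hf.continuous
  have k1 : Continuous fun x => LL c e i j x * Sb c e i b x / WW c δ e i x := (cl.mul cs).div cw w0
  have k2 : Continuous fun x => Sb c e i b x ^ 2 / WW c δ e i x := (cs.pow 2).div cw w0
  have s2 : HasCompactSupport fun x => f x ^ 2 := sq_supp hc
  have s3 : HasCompactSupport fun x => 2 * f x * pd f (j, b) x := (pd_supp hc (j, b)).mul_left
  have c3 : Continuous fun x => 2 * f x * pd f (j, b) x :=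
    (continuous_const.mul cf).mul (pd_cont hf _)
  have key := integral_bilinear_hasLineDerivAt_right_eq_neg_left_of_integrable
    (μ := (volume : Measure (Fin D × Fin n → ℝ)))
    (f := fun x => LL c e i j x * Sb c e i b x / WW c δ e i x)
    (f' := fun x => Sb c e i b x ^ 2 / WW c δ e i x)
    (g := fun x => f x ^ 2) (g' := fun x => 2 * f x * pd f (j, b) x)
    (v := Pi.single (j, b) 1) (B := ContinuousLinearMap.mul ℝ ℝ)
    (integ k2 (cf.pow 2) s2) (integ k1 c3 s3) (integ k1 (cf.pow 2) s2) ?_ ?_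
  · exact key
  · intro x _
    show HasDerivAt (fun t : ℝ => LL c e i j (x + t • Pi.single (j, b) 1)
      * Sb c e i b (x + t • Pi.single (j, b) 1) / WW c δ e i (x + t • Pi.single (j, b) 1)) _ 0
    have e1 : (fun t : ℝ => LL c e i j (x + t • Pi.single (j, b) 1)
      * Sb c e i b (x + t • Pi.single (j, b) 1) / WW c δ e i (x + t • Pi.single (j, b) 1))
        = fun t : ℝ => (LL c e i j x + t * Sb c e i b x) * (Sb c e i b x / WW c δ e i x) := by
      funext t
      unfold WW
      rw [LL_shift c hij, Sb_shift c hij, SS_shift c hij]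
      ring
    rw [e1]
    have h1 : HasDerivAt (fun t : ℝ => LL c e i j x + t * Sb c e i b x) (Sb c e i b x) 0 := by
      simpa using ((hasDerivAt_id (0 : ℝ)).mul_const (Sb c e i b x)).const_add (LL c e i j x)
    have h2 := h1.mul_const (Sb c e i b x / WW c δ e i x)
    have e2 : Sb c e i b x * (Sb c e i b x / WW c δ e i x) = Sb c e i b x ^ 2 / WW c δ e i x := by
      ring
    rw [e2] at h2
    exact h2
  · intro x _
    have hd : HasFDerivAt f (fderiv ℝ f x) x := ((hf.differentiable one_ne_zero) x).hasFDerivAt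
    have h1 := (hd.pow 2).hasLineDerivAt (Pi.single (j, b) 1)
    convert h1 using 1
    simp [pd]

/-- `√SS - δ ≤ SS / W` -/
theorem SS_div {δ : ℝ} (hδ : 0 < δ) (e : ι) (i : Fin D) (x : Fin D × Fin n → ℝ) :
    √(SS c e i x) - δ ≤ SS c e i x / WW c δ e i x := by
  have hW := WW_pos c hδ e i x
  have hS := SS_nn c e i x
  have h1 : √(SS c e i x) ^ 2 = SS c e i x := Real.sq_sqrt hS
  have h2 := WW_sq c (δ := δ) e i x
  have h0 := Real.sqrt_nonneg (SS c e i x)
  rw [le_div_iff₀ hW]
  set s := √(SS c e i x)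
  set W := WW c δ e i x
  have h3 : W ≤ s + δ := by
    apply le_of_sq_le_sq _ (by positivity)
    nlinarith
  rcases le_total s δ with h | h
  · nlinarith [mul_nonneg (sub_nonneg.2 h) hW.le]
  · nlinarith [mul_le_mul_of_nonneg_left h3 (sub_nonneg.2 h), sq_nonneg δ]

/-- pointwise inequality -/
theorem ptw {δ : ℝ} (hδ : 0 < δ) (e : ι) (i j : Fin D) (r t : ℝ) (x : Fin D × Fin n → ℝ) :
    0 ≤ r ^ 2 * (∑ b, pd f (j, b) x ^ 2) + t ^ 2 * (LL c e i j x ^ 2 * f x ^ 2) +
      r * t * ∑ b, LL c e i j x * Sb c e i b x / WW c δ e i x * (2 * f x * pd f (j, b) x) := by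
  have hW := WW_pos c hδ e i x
  have h2 := WW_sq c (δ := δ) e i x
  set W := WW c δ e i x
  have cs := Finset.sum_mul_sq_le_sq_mul_sq (Finset.univ : Finset (Fin n))
    (fun b => Sb c e i b x / W) (fun b => pd f (j, b) x)
  have h3 : ∑ b, (Sb c e i b x / W) ^ 2 ≤ 1 := by
    have : ∑ b, (Sb c e i b x / W) ^ 2 = SS c e i x / W ^ 2 := by
      unfold SS
      rw [Finset.sum_div]
      exact Finset.sum_congr rfl fun b _ => by rw [div_pow]
    rw [this, h2, div_le_one (by have := SS_nn c e i x; positivity)]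
    nlinarith [sq_nonneg δ]
  have h4 : 0 ≤ ∑ b, pd f (j, b) x ^ 2 := Finset.sum_nonneg fun _ _ => sq_nonneg _
  have h5 : (∑ b, Sb c e i b x / W * pd f (j, b) x) ^ 2 ≤ ∑ b, pd f (j, b) x ^ 2 :=
    cs.trans (by nlinarith)
  have h6 : ∑ b, LL c e i j x * Sb c e i b x / W * (2 * f x * pd f (j, b) x) =
      2 * (LL c e i j x * f x) * ∑ b, Sb c e i b x / W * pd f (j, b) x := by
    rw [Finset.mul_sum]
    exact Finset.sum_congr rfl fun b _ => by ring
  rw [h6]
  set s := ∑ b, Sb c e i b x / W * pd f (j, b) x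
  nlinarith [sq_nonneg (r * s + t * (LL c e i j x * f x)),
    mul_le_mul_of_nonneg_left h5 (sq_nonneg r)]

/-- oscillator inequality -/
theorem osc (hf : ContDiff ℝ 1 f) (hc : HasCompactSupport f) {i j : Fin D} (hij : i ≠ j) (e : ι)
    {δ : ℝ} (hδ : 0 < δ) {r t : ℝ} (hr : 0 ≤ r) (ht : 0 ≤ t) :
    ∫ x, r * t * (√(SS c e i x) - δ) * f x ^ 2 ≤
      ∫ x, (r ^ 2 * (∑ b, pd f (j, b) x ^ 2) + t ^ 2 * (LL c e i j x ^ 2 * f x ^ 2)) := by
  have w0 : ∀ x, WW c δ e i x ≠ 0 := fun x => (WW_pos c hδ e i x).ne'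
  have cw := WW_cont c δ e i
  have cs := Sb_cont c e i
  have cl := LL_cont c e i j
  have cf := hf.continuous
  have s2 : HasCompactSupport fun x => f x ^ 2 := sq_supp hc
  have I1 : Integrable fun x => r * t * (√(SS c e i x) - δ) * f x ^ 2 :=
    integ (continuous_const.mul ((SS_cont c e i).sqrt.sub continuous_const)) (cf.pow 2) s2
  have I2 : Integrable fun x => r * t * (SS c e i x / WW c δ e i x) * f x ^ 2 :=
    integ (continuous_const.mul ((SS_cont c e i).div cw w0)) (cf.pow 2) s2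
  have I3 : Integrable fun x => t ^ 2 * (LL c e i j x ^ 2 * f x ^ 2) := by
    have := integ (G := fun x => t ^ 2 * LL c e i j x ^ 2) (continuous_const.mul (cl.pow 2))
      (cf.pow 2) s2
    refine this.congr (Eventually.of_forall fun x => ?_)
    simp only [Pi.pow_apply]
    ring
  have I4 : ∀ b, Integrable fun x => pd f (j, b) x ^ 2 := by
    intro b
    have := integ (G := fun _ : Fin D × Fin n → ℝ => (1 : ℝ)) continuous_const
      ((pd_cont hf (j, b)).pow 2) (sq_supp (pd_supp hc (j, b)))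
    simpa using this
  have I5 : Integrable fun x => r ^ 2 * (∑ b, pd f (j, b) x ^ 2) :=
    (integrable_finsetSum _ fun b _ => I4 b).const_mul _
  have I6 : ∀ b, Integrable fun x =>
      LL c e i j x * Sb c e i b x / WW c δ e i x * (2 * f x * pd f (j, b) x) := by
    intro b
    exact integ ((cl.mul (cs b)).div cw w0) ((continuous_const.mul cf).mul (pd_cont hf _))
      ((pd_supp hc (j, b)).mul_left)
  have I7 : Integrable fun x => r * t * ∑ b,
      LL c e i j x * Sb c e i b x / WW c δ e i x * (2 * f x * pd f (j, b) x) :=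
    (integrable_finsetSum _ fun b _ => I6 b).const_mul _
  have I8 : ∀ b, Integrable fun x => Sb c e i b x ^ 2 / WW c δ e i x * f x ^ 2 := fun b =>
    integ (((cs b).pow 2).div cw w0) (cf.pow 2) s2
  have hpos : 0 ≤ ∫ x, (r ^ 2 * (∑ b, pd f (j, b) x ^ 2) + t ^ 2 * (LL c e i j x ^ 2 * f x ^ 2) +
      r * t * ∑ b, LL c e i j x * Sb c e i b x / WW c δ e i x * (2 * f x * pd f (j, b) x)) := by
    refine integral_nonneg fun x => ?_
    exact ptw c (f := f) hδ e i j r t x
  have e1 : ∫ x, (r ^ 2 * (∑ b, pd f (j, b) x ^ 2) + t ^ 2 * (LL c e i j x ^ 2 * f x ^ 2) +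
      r * t * ∑ b, LL c e i j x * Sb c e i b x / WW c δ e i x * (2 * f x * pd f (j, b) x)) =
      (∫ x, (r ^ 2 * (∑ b, pd f (j, b) x ^ 2) + t ^ 2 * (LL c e i j x ^ 2 * f x ^ 2))) +
      ∫ x, r * t * ∑ b, LL c e i j x * Sb c e i b x / WW c δ e i x *
        (2 * f x * pd f (j, b) x) := integral_add (I5.add I3) I7
  have e2 : ∫ x, r * t * ∑ b, LL c e i j x * Sb c e i b x / WW c δ e i x *
        (2 * f x * pd f (j, b) x) = -∫ x, r * t * (SS c e i x / WW c δ e i x) * f x ^ 2 := by
    rw [integral_const_mul, integral_finsetSum _ fun b _ => I6 b,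
      Finset.sum_congr rfl fun b _ => parts c hf hc hij e b hδ, Finset.sum_neg_distrib,
      ← integral_finsetSum _ fun b _ => I8 b, mul_neg, ← integral_const_mul]
    congr 1
    refine integral_congr_ae (Eventually.of_forall fun x => ?_)
    simp only [SS]
    rw [Finset.sum_div, ← Finset.sum_mul]
    ring
  have e3 : ∫ x, r * t * (√(SS c e i x) - δ) * f x ^ 2 ≤
      ∫ x, r * t * (SS c e i x / WW c δ e i x) * f x ^ 2 := by
    refine integral_mono I1 I2 fun x => ?_
    have := SS_div c hδ e i x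
    exact mul_le_mul_of_nonneg_right (mul_le_mul_of_nonneg_left this (by positivity))
      (sq_nonneg _)
  rw [e1, e2] at hpos
  linarith

end

end Pool.Agent.Q38.LU.SIM
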